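import Pool.Agent.H309R3.Defs

set_option autoImplicit false
set_option linter.unusedVariables false

open scoped ContDiff Matrix Matrix.Norms.Operator
open Finset Matrix

namespace Pool.Agent.H309R3

variable {n : ℕ}

/-- strictly lower triangular -/
def SL (T : Mat n) : Prop := ∀ i j, i ≤ j → T i j = 0
/-- lower triangular -/
def LTr (g : Mat n) : Prop := ∀ i j, i < j → g i j = 0

/-- diagonal matrix with entries `exp (v i)` -/
noncomputable def ed (v : Fin n → ℝ) : Mat n := Matrix.diagonal fun i => Real.exp (v i)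

/-- leading block -/
def blk (k : ℕ) (A : Mat n) : Matrix {i : Fin n // (i:ℕ) < k} {i : Fin n // (i:ℕ) < k} ℝ :=
  A.submatrix Subtype.val Subtype.val

/-- leading principal minor -/
noncomputable def lm (k : ℕ) (A : Mat n) : ℝ := (blk k A).det

/-- Iwasawa projection -/
noncomputable def hh (A : Mat n) (i : Fin n) : ℝ := Real.log (lm (i+1) A) - Real.log (lm i A)

lemma sum_lt {k : ℕ} (f : Fin n → ℝ) (hf : ∀ a : Fin n, k ≤ (a:ℕ) → f a = 0) :
    ∑ a : Fin n, f a = ∑ a : {i : Fin n // (i:ℕ) < k}, f a := by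
  rw [← Finset.sum_subtype (univ.filter fun i : Fin n => (i:ℕ) < k) (by simp)]
  symm
  apply Finset.sum_subset (Finset.subset_univ _)
  intro x _ hx
  apply hf
  simpa using hx

lemma blk_mul_left {g : Mat n} (hg : LTr g) (k : ℕ) (Q : Mat n) :
    blk k (g * Q) = blk k g * blk k Q := by
  ext i j
  simp only [blk, submatrix_apply, mul_apply]
  apply sum_lt
  intro a ha
  rw [hg i a (by have := i.2; simp only [Fin.lt_def]; omega), zero_mul]

lemma blk_transpose (k : ℕ) (Q : Mat n) : blk k Qᵀ = (blk k Q)ᵀ := rfl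

lemma blk_mul_right {g : Mat n} (hg : LTr g) (k : ℕ) (Q : Mat n) :
    blk k (Q * gᵀ) = blk k Q * (blk k g)ᵀ := by
  have := blk_mul_left hg k Qᵀ
  have h2 := congrArg Matrix.transpose this
  rw [Matrix.transpose_mul, ← blk_transpose, ← blk_transpose, Matrix.transpose_mul,
    Matrix.transpose_transpose] at h2
  exact h2

lemma det_blk {g : Mat n} (hg : LTr g) (k : ℕ) :
    (blk k g).det = ∏ i ∈ univ.filter (fun i : Fin n => (i:ℕ) < k), g i i := by
  rw [Matrix.det_of_isLowerTriangular]
  · rw [Finset.prod_subtype (univ.filter fun i : Fin n => (i:ℕ) < k) (p := fun i : Fin n => (i:ℕ) < k)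
      (by simp)]
    rfl
  · intro i j hij
    exact hg _ _ (by simpa using hij)

lemma lm_conj {g : Mat n} (hg : LTr g) (k : ℕ) (Q : Mat n) :
    lm k (g * Q * gᵀ) = (∏ i ∈ univ.filter (fun i : Fin n => (i:ℕ) < k), g i i) ^ 2 * lm k Q := by
  unfold lm
  rw [blk_mul_right hg, blk_mul_left hg, det_mul, det_mul, det_transpose, det_blk hg]
  ring

lemma lm_zero (Q : Mat n) : lm 0 Q = 1 := by
  unfold lm
  have : IsEmpty {i : Fin n // (i:ℕ) < 0} := ⟨fun x => by have := x.2; omega⟩
  exact Matrix.det_isEmpty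

lemma lm_one (k : ℕ) : lm k (1 : Mat n) = 1 := by
  unfold lm blk
  rw [Matrix.submatrix_one _ Subtype.val_injective, det_one]

lemma prod_succ (g : Fin n → ℝ) (i : Fin n) :
    ∏ j ∈ univ.filter (fun j : Fin n => (j:ℕ) < i + 1), g j =
      (∏ j ∈ univ.filter (fun j : Fin n => (j:ℕ) < i), g j) * g i := by
  have : univ.filter (fun j : Fin n => (j:ℕ) < i + 1) =
      insert i (univ.filter (fun j : Fin n => (j:ℕ) < i)) := by
    ext j
    simp only [mem_filter, mem_univ, true_and, mem_insert]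
    constructor
    · intro h
      rcases Nat.lt_succ_iff_lt_or_eq.1 h with h | h
      · right; exact h
      · left; exact Fin.ext h
    · rintro (h | h)
      · rw [h]; omega
      · omega
  rw [this, Finset.prod_insert (by simp)]
  ring

/-- all leading principal minors are positive -/
def U0 : Set (Mat n) := {A | ∀ k ≤ n, 0 < lm k A}

lemma one_mem_U0 : (1 : Mat n) ∈ U0 := fun k _ => by rw [lm_one]; exact one_pos

lemma hh_conj {g : Mat n} (hg : LTr g) (hp : ∀ i, 0 < g i i) {Q : Mat n} (hQ : Q ∈ U0)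
    (i : Fin n) : hh (g * Q * gᵀ) i = hh Q i + 2 * Real.log (g i i) := by
  unfold hh
  rw [lm_conj hg, lm_conj hg, prod_succ]
  have h1 : 0 < ∏ j ∈ univ.filter (fun j : Fin n => (j:ℕ) < i), g j j :=
    Finset.prod_pos fun j _ => hp j
  have h2 := hQ i i.2.le
  have h3 := hQ (i + 1) i.2
  have h4 := hp i
  rw [Real.log_mul (by positivity) h3.ne', Real.log_mul (by positivity) h2.ne', Real.log_pow,
    Real.log_pow, Real.log_mul h1.ne' h4.ne']
  push_cast
  ring

lemma lm_conj_pos {g : Mat n} (hg : LTr g) (hp : ∀ i, 0 < g i i) {Q : Mat n} (k : ℕ)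
    (hQ : 0 < lm k Q) : 0 < lm k (g * Q * gᵀ) := by
  rw [lm_conj hg]
  have h1 : 0 < ∏ j ∈ univ.filter (fun j : Fin n => (j:ℕ) < k), g j j :=
    Finset.prod_pos fun j _ => hp j
  positivity

lemma hh_one (i : Fin n) : hh (1 : Mat n) i = 0 := by
  unfold hh; rw [lm_one, lm_one]; simp

end Pool.Agent.H309R3
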