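import Pool.Agent.H309R3.Smooth

set_option autoImplicit false
set_option linter.unusedVariables false

open scoped ContDiff Matrix Matrix.Norms.Operator Topology
open Finset Matrix

namespace Pool.Agent.H309R3

variable {n : ℕ}

/-- the point `(1+T) exp(v) (1+T)ᵀ` -/
noncomputable def pt (T : Mat n) (v : Fin n → ℝ) : Mat n := (1 + T) * ed v * (1 + T)ᵀ

/-- its triangular square root -/
noncomputable def tg (T : Mat n) (v : Fin n → ℝ) : Mat n := (1 + T) * ed fun i => v i / 2

lemma ed_mul (v w : Fin n → ℝ) : ed v * ed w = ed fun i => v i + w i := by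
  unfold ed
  rw [Matrix.diagonal_mul_diagonal]
  congr 1; ext i; rw [Real.exp_add]

lemma ed_transpose (v : Fin n → ℝ) : (ed v)ᵀ = ed v := Matrix.diagonal_transpose _

lemma ed_zero : (ed fun _ => 0 : Mat n) = 1 := by
  unfold ed; simp

lemma ed_neg_mul (v : Fin n → ℝ) : (ed fun i => - v i) * ed v = 1 := by
  rw [ed_mul]; simp [ed_zero]

lemma ed_mul_neg (v : Fin n → ℝ) : ed v * (ed fun i => - v i) = 1 := by
  rw [ed_mul]; simp [ed_zero]

lemma ed_half (v : Fin n → ℝ) : (ed fun i => v i / 2) * (ed fun i => v i / 2) = ed v := by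
  rw [ed_mul]; simp

lemma unip_LTr {T : Mat n} (hT : SL T) : LTr (1 + T) := by
  intro i j hij
  rw [Matrix.add_apply, hT i j hij.le, Matrix.one_apply_ne hij.ne, add_zero]

lemma unip_diag {T : Mat n} (hT : SL T) (i : Fin n) : (1 + T) i i = 1 := by
  rw [Matrix.add_apply, hT i i le_rfl, Matrix.one_apply_eq, add_zero]

lemma det_unip {T : Mat n} (hT : SL T) : (1 + T).det = 1 := by
  rw [Matrix.det_of_isLowerTriangular _ (fun i j hij => unip_LTr hT _ _ (by simpa using hij))]
  simp [unip_diag hT]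

lemma det_ed (v : Fin n → ℝ) : (ed v).det = Real.exp (∑ i, v i) := by
  unfold ed
  rw [Matrix.det_diagonal, Real.exp_sum]

lemma tg_apply (T : Mat n) (v : Fin n → ℝ) (i j : Fin n) :
    tg T v i j = (1 + T) i j * Real.exp (v j / 2) := by
  unfold tg ed
  rw [Matrix.mul_diagonal]

lemma tg_LTr {T : Mat n} (hT : SL T) (v : Fin n → ℝ) : LTr (tg T v) := by
  intro i j hij
  rw [tg_apply, unip_LTr hT i j hij, zero_mul]

lemma tg_diag {T : Mat n} (hT : SL T) (v : Fin n → ℝ) (i : Fin n) :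
    tg T v i i = Real.exp (v i / 2) := by
  rw [tg_apply, unip_diag hT, one_mul]

lemma tg_pos {T : Mat n} (hT : SL T) (v : Fin n → ℝ) (i : Fin n) : 0 < tg T v i i := by
  rw [tg_diag hT]; exact Real.exp_pos _

lemma pt_eq (T : Mat n) (v : Fin n → ℝ) : pt T v = tg T v * (tg T v)ᵀ := by
  unfold pt tg
  rw [Matrix.transpose_mul, ed_transpose, Matrix.mul_assoc, Matrix.mul_assoc,
    ← Matrix.mul_assoc (ed _) (ed _), ed_half]

lemma det_pt {T : Mat n} (hT : SL T) (v : Fin n → ℝ) : (pt T v).det = Real.exp (∑ i, v i) := by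
  unfold pt
  rw [det_mul, det_mul, det_transpose, det_unip hT, det_ed]; ring

lemma isUnit_of_det {A : Mat n} (h : A.det ≠ 0) : IsUnit A :=
  (Matrix.isUnit_iff_isUnit_det _).2 (isUnit_iff_ne_zero.2 h)

lemma posDef_conj {A P : Mat n} (hP : P.PosDef) (hA : A.det ≠ 0) : (A * P * Aᵀ).PosDef := by
  have := (Matrix.IsUnit.posDef_star_right_conjugate_iff (x := P) (isUnit_of_det hA)).2 hP
  exact this

lemma posDef_ed (v : Fin n → ℝ) : (ed v).PosDef := by
  unfold ed
  exact Matrix.posDef_diagonal_iff.2 fun i => Real.exp_pos _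

lemma posDef_pt {T : Mat n} (hT : SL T) (v : Fin n → ℝ) : (pt T v).PosDef := by
  unfold pt
  apply posDef_conj (posDef_ed v)
  rw [det_unip hT]; exact one_ne_zero

lemma pt_mem {T : Mat n} (hT : SL T) {v : Fin n → ℝ} (hv : ∑ i, v i = 0) : pt T v ∈ SymSp n :=
  ⟨posDef_pt hT v, by rw [det_pt hT, hv, Real.exp_zero]⟩

lemma hh_gg {g : Mat n} (hg : LTr g) (hp : ∀ i, 0 < g i i) (i : Fin n) :
    hh (g * gᵀ) i = 2 * Real.log (g i i) := by
  have := hh_conj hg hp one_mem_U0 i
  rw [Matrix.mul_one, hh_one, zero_add] at this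
  exact this

lemma gg_mem_U0 {g : Mat n} (hg : LTr g) (hp : ∀ i, 0 < g i i) : g * gᵀ ∈ U0 := by
  intro k hk
  have := lm_conj_pos hg hp k (one_mem_U0 k hk)
  rwa [Matrix.mul_one] at this

lemma hh_pt {T : Mat n} (hT : SL T) (v : Fin n → ℝ) (i : Fin n) : hh (pt T v) i = v i := by
  rw [pt_eq, hh_gg (tg_LTr hT v) (tg_pos hT v), tg_diag hT, Real.log_exp]; ring

lemma pt_mem_U0 {T : Mat n} (hT : SL T) (v : Fin n → ℝ) : pt T v ∈ U0 := by
  rw [pt_eq]; exact gg_mem_U0 (tg_LTr hT v) (tg_pos hT v)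

/-- inverse of a lower triangular matrix is lower triangular -/
lemma LTr_inv {g : Mat n} (hg : LTr g) (hd : g.det ≠ 0) : LTr g⁻¹ := by
  let _ : Invertible g := (isUnit_of_det hd).invertible
  have h := Matrix.blockTriangular_inv_of_blockTriangular (M := g) (b := OrderDual.toDual)
    (fun i j hij => hg _ _ (by simpa using hij))
  intro i j hij
  exact h (by simpa using hij)

lemma exists_pt {P : Mat n} (hP : P.PosDef) : ∃ T v, SL T ∧ P = pt T v := by
  set L := LDL.lower hP
  have hLI : IsUnit (LDL.lowerInv hP) := isUnit_of_invertible _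
  have hdI : (LDL.lowerInv hP).det ≠ 0 := ((Matrix.isUnit_iff_isUnit_det _).1 hLI).ne_zero
  have hLT : LTr L := LTr_inv (fun i j hij => LDL.lowerInv_triangular hP hij) hdI
  have hLd : L.det ≠ 0 := by
    show ((LDL.lowerInv hP)⁻¹).det ≠ 0
    rw [Matrix.det_nonsing_inv]
    simpa using hdI
  have hLii : ∀ i, L i i ≠ 0 := by
    intro i hi
    apply hLd
    rw [Matrix.det_of_isLowerTriangular _ (fun i j hij => hLT _ _ (by simpa using hij))]
    exact Finset.prod_eq_zero (Finset.mem_univ i) hi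
  have hD : (LDL.diag hP).PosDef := by
    rw [LDL.diag_eq_lowerInv_conj]
    exact posDef_conj hP hdI
  have hd : ∀ i, 0 < LDL.diagEntries hP i := by
    intro i
    exact Matrix.posDef_diagonal_iff.1 hD i
  refine ⟨(L * Matrix.diagonal fun i => (L i i)⁻¹) - 1, fun i => Real.log (L i i ^ 2 * LDL.diagEntries hP i), ?_, ?_⟩
  · intro i j hij
    rw [Matrix.sub_apply, Matrix.mul_diagonal]
    rcases eq_or_lt_of_le hij with h | h
    · subst h
      rw [Matrix.one_apply_eq, mul_inv_cancel₀ (hLii i), sub_self]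
    · rw [hLT i j h, Matrix.one_apply_ne h.ne]; simp
  · unfold pt
    rw [add_sub_cancel]
    have h1 : ed (fun i => Real.log (L i i ^ 2 * LDL.diagEntries hP i)) =
        Matrix.diagonal (fun i => L i i) * LDL.diag hP * Matrix.diagonal (fun i => L i i) := by
      unfold ed LDL.diag
      rw [Matrix.diagonal_mul_diagonal, Matrix.diagonal_mul_diagonal]
      congr 1
      ext i
      rw [Real.exp_log (by have := hd i; have := hLii i; positivity)]
      ring
    have h2 : Matrix.diagonal (fun i => (L i i)⁻¹) * Matrix.diagonal (fun i => L i i) = 1 := by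
      rw [Matrix.diagonal_mul_diagonal]
      rw [← Matrix.diagonal_one]
      congr 1
      ext i
      exact inv_mul_cancel₀ (hLii i)
    have h3 : Matrix.diagonal (fun i => L i i) * Matrix.diagonal (fun i => (L i i)⁻¹) = 1 := by
      rw [Matrix.diagonal_mul_diagonal]
      rw [← Matrix.diagonal_one]
      congr 1
      ext i
      exact mul_inv_cancel₀ (hLii i)
    rw [h1, Matrix.transpose_mul, Matrix.diagonal_transpose]
    have h4 := LDL.lower_conj_diag hP
    calc P = L * LDL.diag hP * Lᵀ := h4.symm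
      _ = L * 1 * LDL.diag hP * 1 * Lᵀ := by simp
      _ = _ := by
        rw [← h2]
        nth_rewrite 2 [h2]
        rw [← h3]
        simp only [Matrix.mul_assoc]

lemma mem_SymSp {P : Mat n} (hP : P ∈ SymSp n) :
    ∃ T v, SL T ∧ ∑ i, v i = 0 ∧ P = pt T v := by
  obtain ⟨T, v, hT, rfl⟩ := exists_pt hP.1
  refine ⟨T, v, hT, ?_, rfl⟩
  have := hP.2
  rw [det_pt hT] at this
  exact (Real.exp_eq_one_iff _).1 this

lemma SymSp_sub_U0 : (SymSp n) ⊆ U0 := by
  intro P hP
  obtain ⟨T, v, hT, _, rfl⟩ := mem_SymSp hP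
  exact pt_mem_U0 hT v

lemma sum_hh {P : Mat n} (hP : P ∈ SymSp n) : ∑ i, hh P i = 0 := by
  obtain ⟨T, v, hT, hv, rfl⟩ := mem_SymSp hP
  simp [hh_pt hT, hv]

end Pool.Agent.H309R3
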