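import Pool.Agent.H309R3.Chol

set_option autoImplicit false
set_option linter.unusedVariables false

open scoped ContDiff Matrix Matrix.Norms.Operator Topology
open Finset Matrix

namespace Pool.Agent.H309R3

variable {n : ℕ}

lemma det_ne_zero_of_LTr {g : Mat n} (hg : LTr g) (hp : ∀ i, 0 < g i i) : g.det ≠ 0 := by
  rw [Matrix.det_of_isLowerTriangular _ (fun i j hij => hg _ _ (by simpa using hij))]
  exact (Finset.prod_pos fun i _ => hp i).ne'

lemma conj_inv {g : Mat n} (hd : g.det ≠ 0) (X : Mat n) : g * (g⁻¹ * X * (g⁻¹)ᵀ) * gᵀ = X := by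
  have h1 : g * g⁻¹ = 1 := Matrix.mul_nonsing_inv _ (isUnit_iff_ne_zero.2 hd)
  have h2 : (g⁻¹)ᵀ * gᵀ = 1 := by rw [← Matrix.transpose_mul, h1, Matrix.transpose_one]
  calc g * (g⁻¹ * X * (g⁻¹)ᵀ) * gᵀ = (g * g⁻¹) * X * ((g⁻¹)ᵀ * gᵀ) := by
        simp only [Matrix.mul_assoc]
    _ = X := by rw [h1, h2, Matrix.one_mul, Matrix.mul_one]

lemma inv_conj {g : Mat n} (hd : g.det ≠ 0) (Y : Mat n) : g⁻¹ * (g * Y * gᵀ) * (g⁻¹)ᵀ = Y := by
  have h1 : g⁻¹ * g = 1 := Matrix.nonsing_inv_mul _ (isUnit_iff_ne_zero.2 hd)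
  have h2 : gᵀ * (g⁻¹)ᵀ = 1 := by rw [← Matrix.transpose_mul, h1, Matrix.transpose_one]
  calc g⁻¹ * (g * Y * gᵀ) * (g⁻¹)ᵀ = (g⁻¹ * g) * Y * (gᵀ * (g⁻¹)ᵀ) := by
        simp only [Matrix.mul_assoc]
    _ = Y := by rw [h1, h2, Matrix.one_mul, Matrix.mul_one]

lemma gg_inv {g : Mat n} (hd : g.det ≠ 0) : (g * gᵀ)⁻¹ = (g⁻¹)ᵀ * g⁻¹ := by
  rw [Matrix.mul_inv_rev, Matrix.transpose_nonsing_inv]

lemma gm_gg {g : Mat n} (hd : g.det ≠ 0) (Y Z : Mat n) :
    gm (g * gᵀ) (g * Y * gᵀ) (g * Z * gᵀ) = (Y * Z).trace := by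
  unfold gm
  rw [gg_inv hd]
  have h1 : g⁻¹ * g = 1 := Matrix.nonsing_inv_mul _ (isUnit_iff_ne_zero.2 hd)
  have h2 : gᵀ * (g⁻¹)ᵀ = 1 := by rw [← Matrix.transpose_mul, h1, Matrix.transpose_one]
  have h3 : (g⁻¹)ᵀ * g⁻¹ * (g * Y * gᵀ) * ((g⁻¹)ᵀ * g⁻¹) * (g * Z * gᵀ) =
      (g⁻¹)ᵀ * ((g⁻¹ * g) * Y * (gᵀ * (g⁻¹)ᵀ) * (g⁻¹ * g) * Z * gᵀ) := by
    simp only [Matrix.mul_assoc]
  rw [h3, h1, h2, Matrix.trace_mul_comm]
  simp only [Matrix.one_mul, Matrix.mul_one, Matrix.mul_assoc]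
  rw [h2, Matrix.mul_one]

lemma gg_smul (g : Mat n) : g * 1 * gᵀ = g * gᵀ := by rw [Matrix.mul_one]

/-- the derivative of the Iwasawa projection along a curve -/
lemma hasDerivAt_hh {c : ℝ → Mat n} {g Y : Mat n} {t0 : ℝ} (hg : LTr g) (hp : ∀ i, 0 < g i i)
    (h0 : c t0 = g * gᵀ) (h : HasDerivAt c (g * Y * gᵀ) t0) (i : Fin n) :
    HasDerivAt (fun t => hh (c t) i) (Y i i) t0 := by
  have hd := det_ne_zero_of_LTr hg hp
  set q : ℝ → Mat n := fun t => g⁻¹ * c t * (g⁻¹)ᵀ with hq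
  have hc : ∀ t, c t = g * q t * gᵀ := fun t => (conj_inv hd (c t)).symm
  have hq0 : q t0 = 1 := by
    show g⁻¹ * c t0 * (g⁻¹)ᵀ = 1
    rw [h0, ← gg_smul, inv_conj hd]
  have hq' : HasDerivAt q Y t0 := by
    have := (h.const_mul g⁻¹).mul_const (g⁻¹)ᵀ
    rw [inv_conj hd] at this
    exact this
  have key : ∀ k : ℕ, HasDerivAt (fun t => Real.log (lm k (c t)))
      (∑ j ∈ univ.filter (fun j : Fin n => (j:ℕ) < k), Y j j) t0 := by
    intro k
    set p := (∏ j ∈ univ.filter (fun j : Fin n => (j:ℕ) < k), g j j)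
    have hp0 : p ≠ 0 := (Finset.prod_pos fun j _ => hp j).ne'
    have h1 : HasDerivAt (fun t => lm k (c t))
        (p ^ 2 * ∑ j ∈ univ.filter (fun j : Fin n => (j:ℕ) < k), Y j j) t0 := by
      have := (hasDerivAt_lm hq0 hq' k).const_mul (p ^ 2)
      refine this.congr_of_eventuallyEq (Filter.Eventually.of_forall fun t => ?_)
      show lm k (c t) = p ^ 2 * lm k (q t)
      rw [hc t, lm_conj hg]
    have h2 : lm k (c t0) = p ^ 2 := by
      rw [hc t0, lm_conj hg, hq0, lm_one, mul_one]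
    have h3 := h1.log (by rw [h2]; positivity)
    refine h3.congr_deriv ?_
    rw [h2]
    field_simp
  have h4 := (key (i+1)).sub (key i)
  refine h4.congr_deriv ?_
  have hs : univ.filter (fun j : Fin n => (j:ℕ) < i + 1) =
      insert i (univ.filter (fun j : Fin n => (j:ℕ) < i)) := by
    ext j
    simp only [mem_filter, mem_univ, true_and, mem_insert, Fin.ext_iff]
    omega
  rw [hs, Finset.sum_insert (by simp)]
  ring

/-- a point of the symmetric space has a triangular square root -/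
lemma exists_root {P : Mat n} (hP : P ∈ SymSp n) :
    ∃ g : Mat n, LTr g ∧ (∀ i, 0 < g i i) ∧ P = g * gᵀ ∧ g.det = 1 := by
  obtain ⟨T, v, hT, hv, rfl⟩ := mem_SymSp hP
  refine ⟨tg T v, tg_LTr hT v, tg_pos hT v, pt_eq T v, ?_⟩
  unfold tg
  rw [det_mul, det_unip hT, det_ed, one_mul, ← Finset.sum_div, hv, zero_div, Real.exp_zero]

lemma symm_of_mem {P : Mat n} (hP : P ∈ SymSp n) : Pᵀ = P := by
  have := hP.1.isHermitian
  exact this

lemma inv_eq_adj {P : Mat n} (hP : P ∈ SymSp n) : P⁻¹ = P.adjugate := by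
  rw [Matrix.inv_def, hP.2]; simp

lemma deriv_symm {c : ℝ → Mat n} (hc : ∀ t, c t ∈ SymSp n) {X : Mat n} {t : ℝ}
    (h : HasDerivAt c X t) : Xᵀ = X := by
  have h1 : HasDerivAt (fun t => (c t)ᵀ) Xᵀ t := by
    have hL : HasFDerivAt (fun A : Mat n => Aᵀ)
        (LinearMap.toContinuousLinearMap (Matrix.transposeLinearEquiv (Fin n) (Fin n) ℝ ℝ).toLinearMap) (c t) :=
      (LinearMap.toContinuousLinearMap (Matrix.transposeLinearEquiv (Fin n) (Fin n) ℝ ℝ).toLinearMap).hasFDerivAt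
    exact hL.comp_hasDerivAt t h
  have h2 : (fun t => (c t)ᵀ) = c := funext fun t => symm_of_mem (hc t)
  rw [h2] at h1
  exact h1.unique h

/-- normal form of a tangent vector: `X = g Y gᵀ` with `Y` symmetric -/
lemma exists_Y {c : ℝ → Mat n} (hc : ∀ t, c t ∈ SymSp n) {X : Mat n} {t : ℝ}
    (h : HasDerivAt c X t) {g : Mat n} (hg : g.det ≠ 0) :
    ∃ Y : Mat n, X = g * Y * gᵀ ∧ Yᵀ = Y := by
  refine ⟨g⁻¹ * X * (g⁻¹)ᵀ, (conj_inv hg X).symm, ?_⟩
  rw [Matrix.transpose_mul, Matrix.transpose_mul, deriv_symm hc h, Matrix.transpose_transpose,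
    Matrix.mul_assoc]

lemma trace_sq {Y : Mat n} (hY : Yᵀ = Y) : (Y * Y).trace = ∑ i, ∑ j, Y i j ^ 2 := by
  rw [Matrix.trace]
  apply Finset.sum_congr rfl
  intro i _
  rw [Matrix.diag_apply, Matrix.mul_apply]
  apply Finset.sum_congr rfl
  intro j _
  have : Y j i = Y i j := by
    conv_lhs => rw [← hY]
    rfl
  rw [this]; ring

lemma sum_diag_sq_le {Y : Mat n} (hY : Yᵀ = Y) : ∑ i, Y i i ^ 2 ≤ (Y * Y).trace := by
  rw [trace_sq hY]
  apply Finset.sum_le_sum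
  intro i _
  exact Finset.single_le_sum (f := fun j => Y i j ^ 2) (fun j _ => sq_nonneg _) (Finset.mem_univ i)

lemma continuous_speed {c : ℝ → Mat n} (hc : ContDiff ℝ 1 c) (hm : ∀ t, c t ∈ SymSp n) :
    Continuous fun t => √(gm (c t) (deriv c t) (deriv c t)) := by
  apply Real.continuous_sqrt.comp
  unfold gm
  have h1 : (fun t => (c t)⁻¹) = fun t => (c t).adjugate := funext fun t => inv_eq_adj (hm t)
  have h2 : Continuous fun t => (c t)⁻¹ := by
    rw [h1]; exact hc.continuous.matrix_adjugate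
  have h3 : Continuous (deriv c) := hc.continuous_deriv le_rfl
  exact ((((h2.matrix_mul h3).matrix_mul h2).matrix_mul h3)).matrix_trace

/-- the Iwasawa projection does not increase lengths -/
lemma lip_len {c : ℝ → Mat n} (hc : ContDiff ℝ 1 c) (hm : ∀ t, c t ∈ SymSp n) (w : Fin n → ℝ) :
    ∑ i, w i * (hh (c 1) i - hh (c 0) i) ≤ √(∑ i, w i ^ 2) * len c := by
  have hder : ∀ t, ∃ y : Fin n → ℝ, (∀ i, HasDerivAt (fun t => hh (c t) i) (y i) t) ∧
      ∑ i, y i ^ 2 ≤ gm (c t) (deriv c t) (deriv c t) := by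
    intro t
    obtain ⟨g, hg, hp, h0, hd⟩ := exists_root (hm t)
    have hct : HasDerivAt c (deriv c t) t := ((hc.differentiable (by simp)) t).hasDerivAt
    obtain ⟨Y, hX, hY⟩ := exists_Y hm hct (g := g) (by rw [hd]; exact one_ne_zero)
    refine ⟨fun i => Y i i, fun i => hasDerivAt_hh hg hp h0 (hX ▸ hct) i, ?_⟩
    rw [h0, hX, gm_gg (by rw [hd]; exact one_ne_zero)]
    exact sum_diag_sq_le hY
  choose y hy1 hy2 using hder
  have hhc : ∀ i, ContDiff ℝ 1 fun t => hh (c t) i := by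
    intro i
    exact (contDiffOn_hh i).comp_contDiff hc fun t => SymSp_sub_U0 (hm t)
  have hyc : ∀ i, Continuous fun t => y t i := by
    intro i
    have : (fun t => y t i) = deriv fun t => hh (c t) i := funext fun t => (hy1 t i).deriv.symm
    rw [this]
    exact (hhc i).continuous_deriv le_rfl
  have h1 : ∑ i, w i * (hh (c 1) i - hh (c 0) i) = ∫ t in (0:ℝ)..1, ∑ i, w i * y t i := by
    have := intervalIntegral.integral_eq_sub_of_hasDerivAt (a := 0) (b := 1)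
      (f := fun t => ∑ i, w i * hh (c t) i) (f' := fun t => ∑ i, w i * y t i)
      (fun t _ => HasDerivAt.fun_sum fun i _ => (hy1 t i).const_mul (w i))
      (Continuous.intervalIntegrable (continuous_finsetSum _ fun i _ => (hyc i).const_mul _) _ _)
    rw [this, ← Finset.sum_sub_distrib]
    apply Finset.sum_congr rfl
    intro i _; ring
  rw [h1]
  unfold len
  rw [← intervalIntegral.integral_const_mul]
  apply intervalIntegral.integral_mono_on zero_le_one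
  · exact Continuous.intervalIntegrable (continuous_finsetSum _ fun i _ => continuous_const.mul (hyc i)) _ _
  · exact Continuous.intervalIntegrable (continuous_const.mul (continuous_speed hc hm)) _ _
  · intro t _
    have h2 : (∑ i, w i * y t i) ^ 2 ≤ (∑ i, w i ^ 2) * ∑ i, y t i ^ 2 :=
      Finset.sum_mul_sq_le_sq_mul_sq _ _ _
    have h3 : 0 ≤ ∑ i, w i ^ 2 := Finset.sum_nonneg fun i _ => sq_nonneg _
    rw [← Real.sqrt_mul h3]
    apply Real.le_sqrt_of_sq_le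
    exact h2.trans (mul_le_mul_of_nonneg_left (hy2 t) h3)

end Pool.Agent.H309R3
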