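import Mathlib

/-!
# The symmetric space `SL(n,ℝ)/SO(n)`, singular Riemannian foliations, polarity

`Sym₁ n` is the set of positive definite symmetric real `n × n` matrices of determinant one, with
the Riemannian metric `g_P(X,Y) = tr (P⁻¹ X P⁻¹ Y)`.  This is the standard model of the symmetric
space `SL(n,ℝ)/SO(n)` of noncompact type (irreducible for `n ≥ 2`, of rank `n - 1`).
-/

set_option autoImplicit false

open scoped ContDiff Matrix Matrix.Norms.Operator

namespace Pool.Agent.H309R3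

/-- real `n × n` matrices -/
abbrev Mat (n : ℕ) : Type := Matrix (Fin n) (Fin n) ℝ

/-- the manifold underlying the symmetric space `SL(n,ℝ)/SO(n)`: positive definite symmetric
matrices of determinant one (a closed submanifold of the space of matrices) -/
def SymSp (n : ℕ) : Set (Mat n) := {P | P.PosDef ∧ P.det = 1}

/-- the Riemannian metric of `SL(n,ℝ)/SO(n)`: `g_P(X,Y) = tr (P⁻¹ X P⁻¹ Y)` for `X, Y` tangent to
`SymSp n` at `P` -/
noncomputable def gm {n : ℕ} (P X Y : Mat n) : ℝ := (P⁻¹ * X * P⁻¹ * Y).trace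

/-- the vector `X` is tangent to `L` at `P`: it is the velocity at time zero of a smooth curve
in `L` through `P` -/
def TanVec {n : ℕ} (L : Set (Mat n)) (P X : Mat n) : Prop :=
  ∃ c : ℝ → Mat n, ContDiff ℝ ∞ c ∧ (∀ t, c t ∈ L) ∧ c 0 = P ∧ deriv c 0 = X

/-- `L` is an embedded smooth submanifold of codimension `k` of the manifold `SymSp n`: locally it
is the zero set of `k` smooth functions whose differentials are independent on the tangent spaces
of `SymSp n` -/
def IsSubmanifold {n : ℕ} (L : Set (Mat n)) (k : ℕ) : Prop :=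
  L ⊆ SymSp n ∧ ∀ P ∈ L, ∃ (U : Set (Mat n)) (F : Mat n → (Fin k → ℝ)),
    IsOpen U ∧ P ∈ U ∧ ContDiffOn ℝ ∞ F U ∧ L ∩ U = {Q | Q ∈ SymSp n ∧ Q ∈ U ∧ F Q = 0} ∧
    ∀ Q ∈ L ∩ U, ∀ y : Fin k → ℝ, ∃ X, TanVec (SymSp n) Q X ∧ fderiv ℝ F Q X = y

/-- complete geodesics of `SL(n,ℝ)/SO(n)` (with constant speed, possibly constant): smooth curves
in `SymSp n` with vanishing covariant acceleration; the covariant derivative of a vector field `Z`
along `c` is `Z' - (c' c⁻¹ Z + Z c⁻¹ c') / 2`, so the equation is `c'' = c' c⁻¹ c'` -/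
def IsGeodesic {n : ℕ} (c : ℝ → Mat n) : Prop :=
  ContDiff ℝ ∞ c ∧ (∀ t, c t ∈ SymSp n) ∧
    ∀ t, deriv (deriv c) t = deriv c t * (c t)⁻¹ * deriv c t

/-- length of the restriction to `[0,1]` of a curve -/
noncomputable def len {n : ℕ} (c : ℝ → Mat n) : ℝ :=
  ∫ t in (0:ℝ)..1, √(gm (c t) (deriv c t) (deriv c t))

/-- the Riemannian distance of `SL(n,ℝ)/SO(n)`: infimum of the lengths of the `C¹` curves in
`SymSp n` joining the two points -/
noncomputable def rdist {n : ℕ} (P Q : Mat n) : ENNReal :=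
  ⨅ (c : ℝ → Mat n) (_ : ContDiff ℝ 1 c ∧ (∀ t, c t ∈ SymSp n) ∧ c 0 = P ∧ c 1 = Q),
    ENNReal.ofReal (len c)

/-- A singular Riemannian foliation of codimension `k` on `SL(n,ℝ)/SO(n)` all of whose leaves are
closed embedded submanifolds (as closed submanifolds of a complete manifold they are complete):
* the leaves form a partition into nonempty connected closed embedded submanifolds, of
  codimension at least `k`, the codimension `k` being attained;
* the smooth vector fields on `SymSp n` that are tangent to the leaves are transitive on each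
  leaf, i.e. their values at each point fill the tangent space of the leaf;
* a geodesic orthogonal to the leaf through one of its points is orthogonal to all leaves it
  meets. -/
structure IsSRF {n : ℕ} (F : Set (Set (Mat n))) (k : ℕ) : Prop where
  cover : ∀ P ∈ SymSp n, ∃! L, L ∈ F ∧ P ∈ L
  sub : ∀ L ∈ F, L ⊆ SymSp n
  connected : ∀ L ∈ F, IsConnected L
  closed : ∀ L ∈ F, IsClosed L
  submanifold : ∀ L ∈ F, ∃ j, k ≤ j ∧ IsSubmanifold L j
  attained : ∃ L ∈ F, IsSubmanifold L k
  transitive : ∀ L ∈ F, ∀ P ∈ L, ∀ X, TanVec L P X →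
    ∃ (U : Set (Mat n)) (Z : Mat n → Mat n), IsOpen U ∧ SymSp n ⊆ U ∧ ContDiffOn ℝ ∞ Z U ∧
      (∀ L' ∈ F, ∀ Q ∈ L', TanVec L' Q (Z Q)) ∧ Z P = X
  riemannian : ∀ c : ℝ → Mat n, IsGeodesic c → ∀ s : ℝ,
    (∀ L ∈ F, c s ∈ L → ∀ X, TanVec L (c s) X → gm (c s) X (deriv c s) = 0) →
    ∀ t : ℝ, ∀ L ∈ F, c t ∈ L → ∀ X, TanVec L (c t) X → gm (c t) X (deriv c t) = 0

/-- Hyperpolarity of a foliation of codimension `k`: through every point `P` of every regular
leaf there passes a section that is flat, i.e. there is an injective isometric immersion `f` of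
the Euclidean space `ℝᵏ` into `SymSp n` that is totally geodesic (it maps affinely parametrised
straight lines to geodesics), with `f 0 = P`, whose image meets all leaves, and always
orthogonally. -/
def IsHyperpolar {n : ℕ} (F : Set (Set (Mat n))) (k : ℕ) : Prop :=
  ∀ L ∈ F, IsSubmanifold L k → ∀ P ∈ L, ∃ f : EuclideanSpace ℝ (Fin k) → Mat n,
    ContDiff ℝ ∞ f ∧ Function.Injective f ∧ f 0 = P ∧
    (∀ u w, gm (f u) (fderiv ℝ f u w) (fderiv ℝ f u w) = ‖w‖ ^ 2) ∧
    (∀ u w, IsGeodesic fun t : ℝ => f (u + t • w)) ∧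
    (∀ L' ∈ F, ∃ u, f u ∈ L') ∧
    (∀ L' ∈ F, ∀ u, f u ∈ L' → ∀ X, TanVec L' (f u) X → ∀ w, gm (f u) X (fderiv ℝ f u w) = 0)

/-- The leaves are the orbits of a group of isometries of `SL(n,ℝ)/SO(n)` (isometries for the
Riemannian distance; the group is not required to be closed or connected, so that a homogeneous
foliation in the usual sense has this property). -/
def IsHomogeneous {n : ℕ} (F : Set (Set (Mat n))) : Prop :=
  ∃ H : Subgroup (Equiv.Perm (SymSp n)),
    (∀ φ ∈ H, ∀ P Q : SymSp n, rdist (φ P : Mat n) (φ Q : Mat n) = rdist (P : Mat n) (Q : Mat n)) ∧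
    ∀ L ∈ F, ∀ P : SymSp n, (P : Mat n) ∈ L → L = {Q | ∃ φ ∈ H, Q = (φ P : Mat n)}

end Pool.Agent.H309R3
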