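import Pool.Agent.H309R3.Geod

set_option autoImplicit false
set_option linter.unusedVariables false

open scoped ContDiff Matrix Matrix.Norms.Operator Topology
open Finset Matrix

namespace Pool.Agent.H309R3

/-- infinitesimal rotation of `ℝ⁴` tangent to the leaves of the flat foliation -/
noncomputable def rotR (v : Fin 4 → ℝ) : Fin 4 → ℝ :=
  ![(v 2 - v 1) / 2, - (v 3 - v 0) / 2, (v 3 - v 0) / 2, - (v 2 - v 1) / 2]

lemma sum_rotR (v : Fin 4 → ℝ) : ∑ i, rotR v i = 0 := by
  simp [rotR, Fin.sum_univ_four]; ring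

/-- the motion `rot_{τ} v - v` -/
noncomputable def rotU (v : Fin 4 → ℝ) (τ : ℝ) : Fin 4 → ℝ :=
  let a := v 3 - v 0
  let b := v 2 - v 1
  let da := a * Real.cos τ - b * Real.sin τ - a
  let db := b * Real.cos τ + a * Real.sin τ - b
  ![-da/2, -db/2, db/2, da/2]

lemma rotU_zero (v : Fin 4 → ℝ) : rotU v 0 = fun _ => 0 := by
  funext i
  fin_cases i <;> simp [rotU]

lemma sum_rotU (v : Fin 4 → ℝ) (τ : ℝ) : ∑ i, rotU v τ i = 0 := by
  simp [rotU, Fin.sum_univ_four]; ring

lemma hasDerivAt_rotU (v : Fin 4 → ℝ) (r : ℝ) (i : Fin 4) :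
    HasDerivAt (fun t => rotU v (r * t) i) (r * rotR v i) 0 := by
  have hr : HasDerivAt (fun t : ℝ => r * t) r 0 := by
    have := (hasDerivAt_id' (0:ℝ)).const_mul r
    rw [mul_one] at this; exact this
  have hc : HasDerivAt (fun t : ℝ => Real.cos (r * t)) 0 0 := by
    have := (Real.hasDerivAt_cos (r * 0)).comp (0:ℝ) hr
    refine this.congr_deriv ?_
    simp
  have hs : HasDerivAt (fun t : ℝ => Real.sin (r * t)) r 0 := by
    have := (Real.hasDerivAt_sin (r * 0)).comp (0:ℝ) hr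
    refine this.congr_deriv ?_
    simp
  have hda : HasDerivAt (fun t : ℝ => (v 3 - v 0) * Real.cos (r * t) - (v 2 - v 1) * Real.sin (r * t)
      - (v 3 - v 0)) (- r * (v 2 - v 1)) 0 := by
    have := ((hc.const_mul (v 3 - v 0)).sub (hs.const_mul (v 2 - v 1))).sub_const (v 3 - v 0)
    refine this.congr_deriv ?_
    ring
  have hdb : HasDerivAt (fun t : ℝ => (v 2 - v 1) * Real.cos (r * t) + (v 3 - v 0) * Real.sin (r * t)
      - (v 2 - v 1)) (r * (v 3 - v 0)) 0 := by
    have := ((hc.const_mul (v 2 - v 1)).add (hs.const_mul (v 3 - v 0))).sub_const (v 2 - v 1)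
    refine this.congr_deriv ?_
    ring
  fin_cases i
  · have := hda.neg.div_const 2
    refine this.congr_deriv ?_
    simp [rotR]; ring
  · have := hdb.neg.div_const 2
    refine this.congr_deriv ?_
    simp [rotR]; ring
  · have := hdb.div_const 2
    refine this.congr_deriv ?_
    simp [rotR]; ring
  · have := hda.div_const 2
    refine this.congr_deriv ?_
    simp [rotR]; ring

lemma contDiff_rotU (v : Fin 4 → ℝ) (r : ℝ) (i : Fin 4) {k : WithTop ℕ∞} :
    ContDiff ℝ k (fun t => rotU v (r * t) i) := by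
  have hc : ContDiff ℝ k fun t : ℝ => Real.cos (r * t) :=
    Real.contDiff_cos.comp (contDiff_const.mul contDiff_id)
  have hs : ContDiff ℝ k fun t : ℝ => Real.sin (r * t) :=
    Real.contDiff_sin.comp (contDiff_const.mul contDiff_id)
  have hda : ContDiff ℝ k (fun t : ℝ => (v 3 - v 0) * Real.cos (r * t) - (v 2 - v 1) * Real.sin (r * t)
      - (v 3 - v 0)) :=
    ((contDiff_const.mul hc).sub (contDiff_const.mul hs)).sub contDiff_const
  have hdb : ContDiff ℝ k (fun t : ℝ => (v 2 - v 1) * Real.cos (r * t) + (v 3 - v 0) * Real.sin (r * t)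
      - (v 2 - v 1)) :=
    ((contDiff_const.mul hc).add (contDiff_const.mul hs)).sub contDiff_const
  fin_cases i
  · exact hda.neg.div_const 2
  · exact hdb.neg.div_const 2
  · exact hdb.div_const 2
  · exact hda.div_const 2

lemma mem_leafOf_self {P : Mat 4} (hP : P ∈ SymSp 4) : P ∈ leafOf P := ⟨hP, rfl⟩

/-- the invariants of a point obtained by moving `Q` along the leaf -/
lemma ivt_move {P Q : Mat 4} {τ : ℝ} (h : ∀ i, hh P i = hh Q i + rotU (hh Q) τ i) :
    ivt P = ivt Q := by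
  unfold ivt
  rw [h 0, h 1, h 2, h 3]
  simp only [rotU]
  simp only [Matrix.cons_val_zero, Matrix.cons_val_one, Matrix.cons_val]
  ext
  · simp only
    have := Real.sin_sq_add_cos_sq τ
    have e : (hh Q 3 - hh Q 0) ^ 2 + (hh Q 2 - hh Q 1) ^ 2 =
      ((hh Q 3 - hh Q 0) ^ 2 + (hh Q 2 - hh Q 1) ^ 2) * (Real.sin τ ^ 2 + Real.cos τ ^ 2) := by
      rw [this, mul_one]
    rw [e]; ring
  · simp only; ring

/-- tangent vectors of the leaves: the vector `BQ + QBᵀ + r vf (R h(Q)) Q` -/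
lemma tan_leaf {P Q B : Mat 4} (hQ : Q ∈ leafOf P) (hB : SL B) (r : ℝ) :
    TanVec (leafOf P) Q (B * Q + Q * Bᵀ + vf (fun i => r * rotR (hh Q) i) Q) := by
  have hz : (fun t => rotU (hh Q) (r * t)) 0 = fun _ => 0 := by
    simp only [mul_zero, rotU_zero]
  refine ⟨fun t : ℝ => (1 + t • B) * act (rotU (hh Q) (r * t)) Q * (1 + t • B)ᵀ, ?_, ?_, ?_, ?_⟩
  · exact contDiff_move B Q fun i => contDiff_rotU _ _ i
  · intro t
    refine ⟨move_mem hB hQ.1 (sum_rotU _ _) t, ?_⟩
    rw [ivt_move (Q := Q) (τ := r * t) (fun i => hh_move hB hQ.1 (sum_rotU _ _) t i)]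
    exact hQ.2
  · simp only [mul_zero, rotU_zero, zero_smul, add_zero, Matrix.transpose_one, Matrix.mul_one,
      Matrix.one_mul]
    unfold act
    simp [ed_zero]
  · exact (hasDerivAt_move B Q (u := fun t => rotU (hh Q) (r * t)) hz
      fun i => hasDerivAt_rotU (hh Q) r i).deriv

/-- the diagonal part of a tangent vector of a leaf -/
lemma tan_diag {P0 P X g Y : Mat 4} (hP : P ∈ leafOf P0) (hX : TanVec (leafOf P0) P X)
    (hg : LTr g) (hp : ∀ i, 0 < g i i) (h0 : P = g * gᵀ) (h1 : X = g * Y * gᵀ) :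
    ∃ r : ℝ, ∀ i, Y i i = r * rotR (hh P) i := by
  obtain ⟨c, hc, hcm, hc0, hc1⟩ := hX
  have hcd : HasDerivAt c (g * Y * gᵀ) 0 := by
    rw [← h1, ← hc1]
    exact ((hc.differentiable (by simp)) 0).hasDerivAt
  have hder : ∀ i, HasDerivAt (fun t => hh (c t) i) (Y i i) 0 := fun i =>
    hasDerivAt_hh hg hp (by rw [hc0, h0]) hcd i
  have hiv : ∀ t, ivt (c t) = ivt P := fun t => (hcm t).2.trans hP.2.symm
  have hsum : ∀ t, ∑ i, hh (c t) i = 0 := fun t => sum_hh (hcm t).1
  have hA : ∀ t, (hh (c t) 3 - hh (c t) 0) ^ 2 + (hh (c t) 2 - hh (c t) 1) ^ 2 =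
      (hh P 3 - hh P 0) ^ 2 + (hh P 2 - hh P 1) ^ 2 := fun t => congrArg Prod.fst (hiv t)
  have hC : ∀ t, hh (c t) 0 + hh (c t) 3 = hh P 0 + hh P 3 := fun t => congrArg Prod.snd (hiv t)
  -- linear relations
  have e1 : Y 0 0 + Y 3 3 = 0 := by
    have := (hder 0).add (hder 3)
    have h2 : ((fun t => hh (c t) 0) + fun t => hh (c t) 3) = fun _ => hh P 0 + hh P 3 := funext hC
    rw [h2] at this
    exact this.unique (hasDerivAt_const _ _)
  have e2 : ∑ i, Y i i = 0 := by
    have := HasDerivAt.fun_sum (u := (univ : Finset (Fin 4))) fun i _ => hder i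
    have h2 : (fun t => ∑ i, hh (c t) i) = fun _ => (0:ℝ) := funext hsum
    rw [h2] at this
    exact this.unique (hasDerivAt_const _ _)
  have e3 : (hh P 3 - hh P 0) * (Y 3 3 - Y 0 0) + (hh P 2 - hh P 1) * (Y 2 2 - Y 1 1) = 0 := by
    have := (((hder 3).sub (hder 0)).pow 2).add (((hder 2).sub (hder 1)).pow 2)
    have h2 : (((fun t => hh (c t) 3) - fun t => hh (c t) 0) ^ 2 +
        ((fun t => hh (c t) 2) - fun t => hh (c t) 1) ^ 2) =
        fun _ => (hh P 3 - hh P 0) ^ 2 + (hh P 2 - hh P 1) ^ 2 := funext hA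
    rw [h2] at this
    have h3 := this.unique (hasDerivAt_const _ _)
    simp only [Pi.sub_apply, hc0] at h3
    norm_num at h3
    linarith
  rw [Fin.sum_univ_four] at e2
  set a := hh P 3 - hh P 0 with ha
  set b := hh P 2 - hh P 1 with hb
  have f3 : Y 3 3 = - Y 0 0 := by linarith
  have f2 : Y 2 2 = - Y 1 1 := by linarith
  rw [f3, f2] at e3
  have e4 : a * Y 0 0 = - (b * Y 1 1) := by linarith
  by_cases hab : a ^ 2 + b ^ 2 = 0
  · have hz : ∀ t, hh (c t) 3 - hh (c t) 0 = 0 ∧ hh (c t) 2 - hh (c t) 1 = 0 := by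
      intro t
      have h2 := hA t
      rw [hab] at h2
      constructor
      · have : (hh (c t) 3 - hh (c t) 0) ^ 2 = 0 :=
          le_antisymm (by linarith [sq_nonneg (hh (c t) 2 - hh (c t) 1)]) (sq_nonneg _)
        exact pow_eq_zero_iff two_ne_zero |>.1 this
      · have : (hh (c t) 2 - hh (c t) 1) ^ 2 = 0 :=
          le_antisymm (by linarith [sq_nonneg (hh (c t) 3 - hh (c t) 0)]) (sq_nonneg _)
        exact pow_eq_zero_iff two_ne_zero |>.1 this
    have g1 : Y 3 3 - Y 0 0 = 0 := by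
      have := (hder 3).sub (hder 0)
      have h2 : ((fun t => hh (c t) 3) - fun t => hh (c t) 0) = fun _ => (0:ℝ) :=
        funext fun t => (hz t).1
      rw [h2] at this
      exact this.unique (hasDerivAt_const _ _)
    have g2 : Y 2 2 - Y 1 1 = 0 := by
      have := (hder 2).sub (hder 1)
      have h2 : ((fun t => hh (c t) 2) - fun t => hh (c t) 1) = fun _ => (0:ℝ) :=
        funext fun t => (hz t).2
      rw [h2] at this
      exact this.unique (hasDerivAt_const _ _)
    refine ⟨0, fun i => ?_⟩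
    rw [zero_mul]
    have k0 : Y 0 0 = 0 := by linarith
    have k1 : Y 1 1 = 0 := by linarith
    have k2 : Y 2 2 = 0 := by linarith
    have k3 : Y 3 3 = 0 := by linarith
    fin_cases i
    · exact k0
    · exact k1
    · exact k2
    · exact k3
  · refine ⟨(2 * Y 0 0 * b - 2 * Y 1 1 * a) / (a ^ 2 + b ^ 2), fun i => ?_⟩
    have r0 : rotR (hh P) 0 = b / 2 := rfl
    have r1 : rotR (hh P) 1 = - a / 2 := rfl
    have r2 : rotR (hh P) 2 = a / 2 := rfl
    have r3 : rotR (hh P) 3 = - b / 2 := rfl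
    have k0 : Y 0 0 = (2 * Y 0 0 * b - 2 * Y 1 1 * a) / (a ^ 2 + b ^ 2) * (b / 2) := by
      rw [div_mul_eq_mul_div, eq_div_iff hab]
      linear_combination (a) * e4
    have k1 : Y 1 1 = (2 * Y 0 0 * b - 2 * Y 1 1 * a) / (a ^ 2 + b ^ 2) * (- a / 2) := by
      rw [div_mul_eq_mul_div, eq_div_iff hab]
      linear_combination (b) * e4
    fin_cases i
    · exact k0
    · exact k1
    · show Y 2 2 = _ * rotR (hh P) 2
      rw [r2, f2]; linarith
    · show Y 3 3 = _ * rotR (hh P) 3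
      rw [r3, f3]; linarith

end Pool.Agent.H309R3
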