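import Pool.Agent.H309R3.Tang

set_option autoImplicit false
set_option linter.unusedVariables false

open scoped ContDiff Matrix Matrix.Norms.Operator Topology
open Finset Matrix

namespace Pool.Agent.H309R3

variable {n : ℕ}

lemma hasDerivAt_aff (v w : Fin n → ℝ) (s t : ℝ) (i : Fin n) :
    HasDerivAt (fun t => v i + (t - s) * w i) (w i) t := by
  have := (((hasDerivAt_id' t).sub_const s).mul_const (w i)).const_add (v i)
  rw [one_mul] at this
  exact this

lemma unip_isUnit {T : Mat n} (hT : SL T) : IsUnit (1 + T).det := by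
  rw [det_unip hT]; exact isUnit_one

/-- the logarithmic derivative of a line is constant -/
lemma line_log {T : Mat n} (hT : SL T) (v w : Fin n → ℝ) :
    tg T v * Matrix.diagonal w * (tg T v)ᵀ =
      pt T v * (((1 + T)ᵀ)⁻¹ * Matrix.diagonal w * (1 + T)ᵀ) := by
  have h1 : (1 + T)ᵀ * ((1 + T)ᵀ)⁻¹ = 1 :=
    Matrix.mul_nonsing_inv _ (by rw [det_transpose]; exact unip_isUnit hT)
  have h2 : tg T v * Matrix.diagonal w * (tg T v)ᵀ =
      (1 + T) * (Matrix.diagonal w * ed v) * (1 + T)ᵀ := by
    unfold tg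
    rw [Matrix.transpose_mul, ed_transpose, ← ed_half']
    simp only [Matrix.mul_assoc]
  rw [h2, diag_comm_ed]
  unfold pt
  calc (1 + T) * (ed v * Matrix.diagonal w) * (1 + T)ᵀ =
      (1 + T) * ed v * ((1 + T)ᵀ * ((1 + T)ᵀ)⁻¹) * Matrix.diagonal w * (1 + T)ᵀ := by
        rw [h1]
        simp only [Matrix.mul_assoc, Matrix.one_mul]
    _ = _ := by simp only [Matrix.mul_assoc]

lemma pt_isUnit {T : Mat n} (hT : SL T) (v : Fin n → ℝ) : IsUnit (pt T v).det := by
  rw [det_pt hT]; exact (Real.exp_pos _).ne'.isUnit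

/-- lines are geodesics -/
lemma isGeodesic_line {T : Mat n} (hT : SL T) {v w : Fin n → ℝ} (hv : ∑ i, v i = 0)
    (hw : ∑ i, w i = 0) (s : ℝ) : IsGeodesic fun t => pt T fun i => v i + (t - s) * w i := by
  refine ⟨?_, ?_, ?_⟩
  · apply contDiff_pt_line
    intro i
    exact contDiff_const.add ((contDiff_id.sub contDiff_const).mul contDiff_const)
  · intro t
    apply pt_mem hT
    rw [Finset.sum_add_distrib, ← Finset.mul_sum, hv, hw]; ring
  · set K : Mat n := ((1 + T)ᵀ)⁻¹ * Matrix.diagonal w * (1 + T)ᵀ with hK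
    set c : ℝ → Mat n := fun t => pt T fun i => v i + (t - s) * w i with hc
    have h1 : ∀ t, HasDerivAt c (c t * K) t := by
      intro t
      have := hasDerivAt_line (T := T) (v := fun t i => v i + (t - s) * w i)
        (fun i => hasDerivAt_aff v w s t i)
      rw [line_log hT] at this
      exact this
    have h2 : deriv c = fun t => c t * K := funext fun t => (h1 t).deriv
    intro t
    have h3 : deriv (deriv c) t = c t * K * K := by
      rw [h2]
      exact ((h1 t).mul_const K).deriv
    rw [h3, h2]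
    have h4 : (c t)⁻¹ * c t = 1 := Matrix.nonsing_inv_mul _ (pt_isUnit hT _)
    calc c t * K * K = c t * K * 1 * K := by rw [Matrix.mul_one]
      _ = c t * K * (c t)⁻¹ * (c t * K) := by rw [← h4]; simp only [Matrix.mul_assoc]

/-- uniqueness of geodesics with horizontal initial velocity -/
lemma geodesic_unique {T : Mat n} (hT : SL T) {v w : Fin n → ℝ} {s : ℝ} {c : ℝ → Mat n}
    (hc : IsGeodesic c) (h0 : c s = pt T v)
    (h1 : deriv c s = tg T v * Matrix.diagonal w * (tg T v)ᵀ) :
    ∀ t, c t = pt T fun i => v i + (t - s) * w i := by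
  obtain ⟨hsm, hm, hode⟩ := hc
  set K : Mat n := ((1 + T)ᵀ)⁻¹ * Matrix.diagonal w * (1 + T)ᵀ with hK
  set q : ℝ → Mat n := fun t => pt T fun i => v i + (t - s) * w i with hq
  have hq1 : ∀ t, HasDerivAt q (q t * K) t := by
    intro t
    have := hasDerivAt_line (T := T) (v := fun t i => v i + (t - s) * w i)
      (fun i => hasDerivAt_aff v w s t i)
    rw [line_log hT] at this
    exact this
  have hcd : ∀ t, HasDerivAt c (deriv c t) t := fun t =>
    ((hsm.differentiable (by simp)) t).hasDerivAt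
  have hcdd : ∀ t, HasDerivAt (deriv c) (deriv (deriv c) t) t := by
    intro t
    have : ContDiff ℝ 1 (deriv c) := by
      have h2 : ContDiff ℝ (1 + 1) c := hsm.of_le (by
        norm_cast)
      exact (contDiff_succ_iff_deriv.1 h2).2.2
    exact ((this.differentiable (by simp)) t).hasDerivAt
  have hu : ∀ t, IsUnit (c t).det := fun t => by rw [(hm t).2]; exact isUnit_one
  obtain ⟨hic, hid⟩ := deriv_inv (k := ∞) (by simp) hsm hm
  have hcinv : ∀ t, HasDerivAt (fun t => (c t)⁻¹) (- ((c t)⁻¹ * deriv c t * (c t)⁻¹)) t := by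
    intro t
    rw [← hid t]
    exact ((hic.differentiable (by simp)) t).hasDerivAt
  -- the logarithmic derivative of `c` is constant
  have hL : ∀ t, (c t)⁻¹ * deriv c t = (c s)⁻¹ * deriv c s := by
    intro t
    have hd : ∀ t, HasDerivAt (fun t => (c t)⁻¹ * deriv c t) 0 t := by
      intro t
      have := (hcinv t).mul (hcdd t)
      refine this.congr_deriv ?_
      rw [hode t]
      simp only [Matrix.neg_mul, Matrix.mul_assoc]
      abel
    exact is_const_of_deriv_eq_zero (fun t => (hd t).differentiableAt) (fun t => (hd t).deriv) t s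
  have hLK : (c s)⁻¹ * deriv c s = K := by
    have h2 : c s * K = deriv c s := by
      rw [h1, h0, line_log hT]
    rw [← h2, ← Matrix.mul_assoc, Matrix.nonsing_inv_mul _ (hu s), Matrix.one_mul]
  have hcK : ∀ t, deriv c t = c t * K := by
    intro t
    rw [← hLK, ← hL t, ← Matrix.mul_assoc, Matrix.mul_nonsing_inv _ (hu t), Matrix.one_mul]
  -- `c q⁻¹` is constant
  have hqu : ∀ t, IsUnit (q t).det := fun t => pt_isUnit hT _
  have hqi : ∀ t, q t * (q t)⁻¹ = 1 := fun t => Matrix.mul_nonsing_inv _ (hqu t)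
  have hci : ∀ t, (c t)⁻¹ * c t = 1 := fun t => Matrix.nonsing_inv_mul _ (hu t)
  have hcons : ∀ t, HasDerivAt (fun t => q t * (c t)⁻¹) 0 t := by
    intro t
    have := (hq1 t).mul (hcinv t)
    refine this.congr_deriv ?_
    rw [hcK t]
    have e : (c t)⁻¹ * (c t * K) * (c t)⁻¹ = K * (c t)⁻¹ := by
      rw [← Matrix.mul_assoc (c t)⁻¹, hci t, Matrix.one_mul]
    rw [e]
    simp only [Matrix.mul_neg, Matrix.mul_assoc]
    abel
  intro t
  have h3 : q t * (c t)⁻¹ = q s * (c s)⁻¹ :=
    is_const_of_deriv_eq_zero (fun t => (hcons t).differentiableAt) (fun t => (hcons t).deriv) t s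
  have h4 : q s = c s := by
    rw [h0]
    show pt T (fun i => v i + (s - s) * w i) = pt T v
    congr 1; funext i; ring
  rw [h4, Matrix.mul_nonsing_inv _ (hu s)] at h3
  have h5 : q t * (c t)⁻¹ * c t = 1 * c t := by rw [h3]
  rw [Matrix.mul_assoc, hci t, Matrix.mul_one, Matrix.one_mul] at h5
  exact h5.symm

end Pool.Agent.H309R3
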