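import Pool.Agent.H309R3.Upper

set_option autoImplicit false
set_option linter.unusedVariables false

open scoped ContDiff Matrix Matrix.Norms.Operator Topology
open Finset Matrix

namespace Pool.Agent.H309R3

/-- the two invariants of the leaves -/
noncomputable def ivt (P : Mat 4) : ℝ × ℝ :=
  ((hh P 3 - hh P 0) ^ 2 + (hh P 2 - hh P 1) ^ 2, hh P 0 + hh P 3)

/-- the leaf through `P` -/
noncomputable def leafOf (P : Mat 4) : Set (Mat 4) := {Q | Q ∈ SymSp 4 ∧ ivt Q = ivt P}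

/-- the foliation -/
noncomputable def fol : Set (Set (Mat 4)) := {L | ∃ P ∈ SymSp 4, L = leafOf P}

/-- the direction `(-1,0,0,1)` -/
def dD : Fin 4 → ℝ := ![-1, 0, 0, 1]

/-- the point `exp (t dD)` -/
noncomputable def eD (t : ℝ) : Mat 4 := ed fun i => t * dD i

lemma eD_eq (t : ℝ) : eD t = pt 0 fun i => t * dD i := (pt_zero _).symm

lemma eD_mem (t : ℝ) : eD t ∈ SymSp 4 := by
  rw [eD_eq]
  apply pt_mem SL_zero
  simp [dD, Fin.sum_univ_four]

lemma hh_eD (t : ℝ) (i : Fin 4) : hh (eD t) i = t * dD i := by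
  rw [eD_eq, hh_pt SL_zero]

lemma eD_inv (t : ℝ) : (eD t)⁻¹ = eD (-t) := by
  apply Matrix.inv_eq_right_inv
  unfold eD
  rw [ed_mul]
  have : (fun i => t * dD i + -t * dD i) = fun _ => 0 := by funext i; ring
  rw [this, ed_zero]

lemma hm_eD (t : ℝ) (i : Fin 4) : hm' (eD t) i = t * dD i := by
  unfold hm'
  rw [eD_inv, hh_eD]; ring

lemma ivt_eD (t : ℝ) : ivt (eD t) = (4 * t ^ 2, 0) := by
  unfold ivt
  simp only [hh_eD]
  simp [dD]
  ring

lemma exists_unip_inv {n : ℕ} {T : Mat n} (hT : SL T) : ∃ S, SL S ∧ (1 + T)⁻¹ = 1 + S := by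
  have hu : IsUnit (1 + T).det := by rw [det_unip hT]; exact isUnit_one
  refine ⟨-((1 + T)⁻¹ * T), ?_, ?_⟩
  · have := LTr_mul_SL (LTr_inv (unip_LTr hT) (by rw [det_unip hT]; exact one_ne_zero)) hT
    intro i j hij
    rw [Matrix.neg_apply, this i j hij, neg_zero]
  · have h := Matrix.nonsing_inv_mul _ hu
    rw [Matrix.mul_add, Matrix.mul_one] at h
    rw [← sub_eq_add_neg]
    exact eq_sub_of_add_eq h

lemma pt_inv {n : ℕ} {T S : Mat n} (hT : SL T) (hS : (1 + T)⁻¹ = 1 + S) (v : Fin n → ℝ) :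
    (pt T v)⁻¹ = (1 + S)ᵀ * (ed fun i => - v i) * (1 + S) := by
  unfold pt
  have h1 : (ed v)⁻¹ = ed fun i => - v i := Matrix.inv_eq_right_inv (ed_mul_neg v)
  rw [Matrix.mul_inv_rev, Matrix.mul_inv_rev, ← Matrix.transpose_nonsing_inv, hS, h1, Matrix.mul_assoc]

lemma pt_apply {n : ℕ} (T : Mat n) (v : Fin n → ℝ) (i j : Fin n) :
    pt T v i j = ∑ k, (1 + T) i k * Real.exp (v k) * (1 + T) j k := by
  unfold pt ed
  rw [Matrix.mul_apply]
  apply Finset.sum_congr rfl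
  intro k _
  rw [Matrix.mul_diagonal, Matrix.transpose_apply]

lemma pt_inv_apply {n : ℕ} {T S : Mat n} (hT : SL T) (hS : (1 + T)⁻¹ = 1 + S) (v : Fin n → ℝ)
    (i j : Fin n) :
    (pt T v)⁻¹ i j = ∑ k, (1 + S) k i * Real.exp (- v k) * (1 + S) k j := by
  rw [pt_inv hT hS]
  unfold ed
  rw [Matrix.mul_apply]
  apply Finset.sum_congr rfl
  intro k _
  rw [Matrix.mul_diagonal, Matrix.transpose_apply]

/-- comparison of the two Iwasawa projections -/
lemma inv_compare {T T' S : Mat 4} {v v' : Fin 4 → ℝ} (hT : SL T) (hT' : SL T')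
    (hS : SL S) (hTS : (1 + T)⁻¹ = 1 + S) (h : (pt T v)⁻¹ = pt T' v') :
    Real.exp (v' 0) = Real.exp (- v 0) + S 1 0 ^ 2 * Real.exp (- v 1) + S 2 0 ^ 2 * Real.exp (- v 2)
      + S 3 0 ^ 2 * Real.exp (- v 3) ∧
    Real.exp (- v' 3) = Real.exp (v 3) + T 3 0 ^ 2 * Real.exp (v 0) + T 3 1 ^ 2 * Real.exp (v 1)
      + T 3 2 ^ 2 * Real.exp (v 2) := by
  constructor
  · have h1 : (pt T v)⁻¹ 0 0 = pt T' v' 0 0 := by rw [h]
    rw [pt_inv_apply hT hTS, pt_apply] at h1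
    simp only [Fin.sum_univ_four, Matrix.add_apply] at h1
    rw [hT' 0 0 (by decide), hT' 0 1 (by decide), hT' 0 2 (by decide), hT' 0 3 (by decide),
      hS 0 0 (by decide)] at h1
    simp at h1
    rw [← h1]; ring
  · obtain ⟨S', hS', hTS'⟩ := exists_unip_inv hT'
    have hu : IsUnit (pt T v).det := by rw [det_pt hT]; exact (Real.exp_pos _).ne'.isUnit
    have h0 : pt T v = (pt T' v')⁻¹ := by rw [← h, Matrix.nonsing_inv_nonsing_inv _ hu]
    have h1 : pt T v 3 3 = (pt T' v')⁻¹ 3 3 := by rw [← h0]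
    rw [pt_inv_apply hT' hTS', pt_apply] at h1
    simp only [Fin.sum_univ_four, Matrix.add_apply] at h1
    rw [hS' 0 3 (by decide), hS' 1 3 (by decide), hS' 2 3 (by decide), hS' 3 3 (by decide),
      hT 3 3 (by decide)] at h1
    simp at h1
    rw [← h1]; ring

lemma sum_sq_eD (s t : ℝ) : √(∑ i, (s * dD i - t * dD i) ^ 2) = √2 * |s - t| := by
  have : ∑ i, (s * dD i - t * dD i) ^ 2 = 2 * (s - t) ^ 2 := by
    simp [dD, Fin.sum_univ_four]; ring
  rw [this, Real.sqrt_mul (by norm_num), Real.sqrt_sq_eq_abs]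

lemma rdist_eD (s t : ℝ) : rdist (eD t) (eD s) ≤ ENNReal.ofReal (√2 * |s - t|) := by
  have := rdist_flat (T := (0 : Mat 4)) SL_zero (v := fun i => t * dD i) (w := fun i => s * dD i)
    (by simp [dD, Fin.sum_univ_four]) (by simp [dD, Fin.sum_univ_four])
  rw [← eD_eq, ← eD_eq] at this
  refine this.trans (le_of_eq ?_)
  rw [sum_sq_eD]

/-- the rigidity step: a point of the leaf of `exp (-tD)` at distance at most `(t-1)|D|` from
`exp D` is `exp (tD)` -/
lemma rigid {t : ℝ} (ht : 1 ≤ t) {y : Mat 4} (hy : y ∈ SymSp 4) (hi : ivt y = ivt (eD (-t)))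
    (hd : rdist (eD 1) y ≤ ENNReal.ofReal (√2 * (t - 1))) : y = eD t := by
  obtain ⟨T, v, hT, hv, rfl⟩ := mem_SymSp hy
  have hn : 0 ≤ √2 * (t - 1) := by have := Real.sqrt_nonneg 2; nlinarith
  have h1 := (ENNReal.ofReal_le_ofReal_iff hn).1 ((le_rdist (P := eD 1) (Q := pt T v)).trans hd)
  have h2 := (ENNReal.ofReal_le_ofReal_iff hn).1 ((le_rdist' (P := eD 1) (Q := pt T v)).trans hd)
  have hs2 : √2 ^ 2 = (2:ℝ) := Real.sq_sqrt (by norm_num)
  have h3 : ∑ i, (v i - 1 * dD i) ^ 2 ≤ 2 * (t - 1) ^ 2 := by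
    have h4 := Real.sqrt_le_iff.1 h1
    simp only [hh_pt hT, hh_eD] at h4
    calc _ ≤ (√2 * (t - 1)) ^ 2 := h4.2
      _ = 2 * (t - 1) ^ 2 := by rw [mul_pow, hs2]
  rw [ivt_eD] at hi
  unfold ivt at hi
  simp only [hh_pt hT, Prod.mk.injEq] at hi
  obtain ⟨hi1, hi2⟩ := hi
  have h3' : (v 0 + 1) ^ 2 + v 1 ^ 2 + v 2 ^ 2 + (v 3 - 1) ^ 2 ≤ 2 * (t - 1) ^ 2 := by
    refine le_trans (le_of_eq ?_) h3
    simp [dD, Fin.sum_univ_four]
  rw [Fin.sum_univ_four] at hv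
  have hv12 : v 1 + v 2 = 0 := by linarith
  have hv3 : v 3 = - v 0 := by linarith
  have hv2 : v 2 = - v 1 := by linarith
  rw [hv3, hv2] at h3' hi1
  have e1 : v 0 ^ 2 + v 1 ^ 2 = t ^ 2 := by linarith
  have e2 : v 0 ≤ - t := by linarith
  have e3 : v 0 = - t := by
    have : |v 0| ≤ t := abs_le_of_sq_le_sq (by linarith [sq_nonneg (v 1)]) (by linarith)
    linarith [neg_abs_le (v 0)]
  have e4 : v 1 = 0 := by
    have : v 1 ^ 2 = 0 := by rw [e3] at e1; linarith [neg_sq t]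
    exact pow_eq_zero_iff two_ne_zero |>.1 this
  have e5 : v 2 = 0 := by rw [hv2, e4, neg_zero]
  have e6 : v 3 = t := by rw [hv3, e3, neg_neg]
  -- second projection
  obtain ⟨S, hS, hTS⟩ := exists_unip_inv hT
  obtain ⟨T', v', hT', hv', hinv⟩ := mem_SymSp (inv_mem hy)
  obtain ⟨c1, c2⟩ := inv_compare hT hT' hS hTS hinv
  have h4 : ∑ i, (- v' i - 1 * dD i) ^ 2 ≤ 2 * (t - 1) ^ 2 := by
    have h4 := Real.sqrt_le_iff.1 h2
    have h5 : ∀ i, hm' (pt T v) i = - v' i := by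
      intro i; unfold hm'; rw [hinv, hh_pt hT']
    simp only [h5, hm_eD] at h4
    calc _ ≤ (√2 * (t - 1)) ^ 2 := h4.2
      _ = 2 * (t - 1) ^ 2 := by rw [mul_pow, hs2]
  have h4' : (- v' 0 + 1) ^ 2 + v' 1 ^ 2 + v' 2 ^ 2 + (- v' 3 - 1) ^ 2 ≤ 2 * (t - 1) ^ 2 := by
    refine le_trans (le_of_eq ?_) h4
    simp [dD, Fin.sum_univ_four]
  have p0 := Real.exp_pos (v 0)
  have p1 := Real.exp_pos (v 1)
  have p2 := Real.exp_pos (v 2)
  have q1 := Real.exp_pos (- v 1)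
  have q2 := Real.exp_pos (- v 2)
  have q3 := Real.exp_pos (- v 3)
  have f1 : t ≤ v' 0 := by
    rw [← Real.exp_le_exp, c1, e3, neg_neg]
    have a1 : 0 ≤ S 1 0 ^ 2 * Real.exp (- v 1) := by positivity
    have a2 : 0 ≤ S 2 0 ^ 2 * Real.exp (- v 2) := by positivity
    have a3 : 0 ≤ S 3 0 ^ 2 * Real.exp (- v 3) := by positivity
    linarith
  have f2 : t ≤ - v' 3 := by
    rw [← Real.exp_le_exp, c2, e6]
    have a1 : 0 ≤ T 3 0 ^ 2 * Real.exp (v 0) := by positivity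
    have a2 : 0 ≤ T 3 1 ^ 2 * Real.exp (v 1) := by positivity
    have a3 : 0 ≤ T 3 2 ^ 2 * Real.exp (v 2) := by positivity
    linarith
  have f3 : (t - 1) ^ 2 ≤ (- v' 0 + 1) ^ 2 := by
    have e : (- v' 0 + 1) ^ 2 = (v' 0 - 1) ^ 2 := by ring
    rw [e]; exact pow_le_pow_left₀ (by linarith) (by linarith) 2
  have f4 : (t - 1) ^ 2 ≤ (- v' 3 - 1) ^ 2 := pow_le_pow_left₀ (by linarith) (by linarith) 2
  have f5 : v' 1 ^ 2 = 0 := le_antisymm (by linarith [sq_nonneg (v' 2)]) (sq_nonneg _)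
  have f6 : v' 2 ^ 2 = 0 := le_antisymm (by linarith [sq_nonneg (v' 1)]) (sq_nonneg _)
  have f7 : v' 0 = t := by
    have : |v' 0 - 1| ≤ t - 1 := by
      apply abs_le_of_sq_le_sq _ (by linarith)
      have e : (- v' 0 + 1) ^ 2 = (v' 0 - 1) ^ 2 := by ring
      rw [← e]; linarith
    linarith [le_abs_self (v' 0 - 1)]
  have f8 : v' 3 = - t := by
    have : |- v' 3 - 1| ≤ t - 1 := abs_le_of_sq_le_sq (by linarith) (by linarith)
    linarith [le_abs_self (- v' 3 - 1)]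
  have f9 : v' 1 = 0 := pow_eq_zero_iff two_ne_zero |>.1 f5
  have f10 : v' 2 = 0 := pow_eq_zero_iff two_ne_zero |>.1 f6
  rw [f7, e3, neg_neg] at c1
  rw [f8, e6, neg_neg] at c2
  have sq0 : ∀ {a b : ℝ}, 0 < b → a ^ 2 * b = 0 → a = 0 := by
    intro a b hb h
    rcases mul_eq_zero.1 h with h | h
    · exact pow_eq_zero_iff two_ne_zero |>.1 h
    · exact absurd h hb.ne'
  have b1 : 0 ≤ S 1 0 ^ 2 * Real.exp (- v 1) := by positivity
  have b2 : 0 ≤ S 2 0 ^ 2 * Real.exp (- v 2) := by positivity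
  have b3 : 0 ≤ S 3 0 ^ 2 * Real.exp (- v 3) := by positivity
  have b4 : 0 ≤ T 3 0 ^ 2 * Real.exp (v 0) := by positivity
  have b5 : 0 ≤ T 3 1 ^ 2 * Real.exp (v 1) := by positivity
  have b6 : 0 ≤ T 3 2 ^ 2 * Real.exp (v 2) := by positivity
  have S10 : S 1 0 = 0 := sq0 q1 (by linarith)
  have S20 : S 2 0 = 0 := sq0 q2 (by linarith)
  have S30 : S 3 0 = 0 := sq0 q3 (by linarith)
  have T30 : T 3 0 = 0 := sq0 p0 (by linarith)
  have T31 : T 3 1 = 0 := sq0 p1 (by linarith)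
  have T32 : T 3 2 = 0 := sq0 p2 (by linarith)
  -- first column of `T`
  have hprod : (1 + T) * (1 + S) = 1 := by
    rw [← hTS]; exact Matrix.mul_nonsing_inv _ (by rw [det_unip hT]; exact isUnit_one)
  have hcol : ∀ i : Fin 4, i ≠ 0 → T i 0 = 0 := by
    intro i hi
    have h5 : ((1 + T) * (1 + S)) i 0 = (1 : Mat 4) i 0 := by rw [hprod]
    rw [Matrix.mul_apply, Fin.sum_univ_four] at h5
    simp only [Matrix.add_apply, S10, S20, S30, hS 0 0 (by decide)] at h5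
    rw [Matrix.one_apply_ne hi] at h5
    simp [Matrix.one_apply] at h5
    exact h5
  have T10 := hcol 1 (by decide)
  have T20 := hcol 2 (by decide)
  -- the middle entry
  obtain ⟨S', hS', hTS'⟩ := exists_unip_inv hT'
  have hu : IsUnit (pt T v).det := by rw [det_pt hT]; exact (Real.exp_pos _).ne'.isUnit
  have h0 : pt T v = (pt T' v')⁻¹ := by rw [← hinv, Matrix.nonsing_inv_nonsing_inv _ hu]
  have g1 : pt T v 2 3 = (pt T' v')⁻¹ 2 3 := by rw [← h0]
  have g2 : pt T v 2 2 = (pt T' v')⁻¹ 2 2 := by rw [← h0]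
  rw [pt_inv_apply hT' hTS', pt_apply] at g1 g2
  simp only [Fin.sum_univ_four, Matrix.add_apply] at g1 g2
  rw [hS' 0 3 (by decide), hS' 1 3 (by decide), hS' 2 3 (by decide), hS' 3 3 (by decide),
    T30, T31, T32, hT 3 3 (by decide), hT 2 3 (by decide)] at g1
  simp at g1
  rw [hS' 0 2 (by decide), hS' 1 2 (by decide), hS' 2 2 (by decide), g1,
    T20, hT 2 3 (by decide), hT 2 2 (by decide), e5, f10, e4] at g2
  simp at g2
  have hT0 : T = 0 := by
    ext i j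
    rcases le_or_gt i j with h | h
    · exact hT i j h
    · fin_cases i <;> fin_cases j <;> first | exact T10 | exact T20 | exact T30 | exact T31 | exact T32 | exact g2 | (exfalso; revert h; decide)
  rw [hT0, eD_eq]
  congr 1
  funext i
  fin_cases i <;> simp [dD, e3, e4, e5, e6]

/-- the point of the `N`-orbit of the base point used in the argument -/
noncomputable def xN : Mat 4 := pt (Matrix.single 1 0 1) fun _ => 0

lemma SL_single : SL (Matrix.single 1 0 1 : Mat 4) := by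
  intro i j hij
  rw [Matrix.single_apply]
  rw [if_neg]
  rintro ⟨rfl, rfl⟩
  exact absurd hij (by decide)

lemma xN_mem : xN ∈ SymSp 4 := pt_mem SL_single (by simp)

lemma ivt_xN : ivt xN = (0, 0) := by
  unfold ivt xN
  simp only [hh_pt SL_single]
  simp

lemma xN_hm : hm' xN 0 = - Real.log 2 ∧ hm' xN 3 = 0 := by
  obtain ⟨T', v', hT', hv', hinv⟩ := mem_SymSp (inv_mem xN_mem)
  have hS : SL (- Matrix.single 1 0 1 : Mat 4) := by
    intro i j hij
    rw [Matrix.neg_apply, SL_single i j hij, neg_zero]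
  have hTS : (1 + Matrix.single 1 0 1 : Mat 4)⁻¹ = 1 + (- Matrix.single 1 0 1 : Mat 4) := by
    apply Matrix.inv_eq_right_inv
    have : (Matrix.single 1 0 1 : Mat 4) * Matrix.single 1 0 1 = 0 := by
      rw [Matrix.single_mul_single_of_ne]; decide
    rw [mul_add, mul_one, add_mul, one_mul, mul_neg, this, neg_zero, add_zero]
    abel
  obtain ⟨c1, c2⟩ := inv_compare SL_single hT' hS hTS hinv
  simp at c1 c2
  unfold hm'
  rw [hinv, hh_pt hT', hh_pt hT']
  constructor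
  · have : v' 0 = Real.log 2 := by
      rw [← Real.exp_eq_exp, Real.exp_log (by norm_num), c1]; norm_num
    rw [this]
  · exact neg_eq_zero.2 c2

theorem not_homogeneous : ¬ IsHomogeneous fol := by
  rintro ⟨H, hiso, horb⟩
  -- elements of `H` preserve the leaves
  have hpres : ∀ φ ∈ H, ∀ P : SymSp 4, ivt (φ P : Mat 4) = ivt (P : Mat 4) := by
    intro φ hφ P
    have h1 := horb (leafOf (P : Mat 4)) ⟨P, P.2, rfl⟩ P ⟨P.2, rfl⟩
    have h2 : (φ P : Mat 4) ∈ leafOf (P : Mat 4) := by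
      rw [h1]; exact ⟨φ, hφ, rfl⟩
    exact h2.2
  obtain ⟨φ, hφ, hφe⟩ : ∃ φ ∈ H, eD 1 = (φ ⟨eD (-1), eD_mem _⟩ : Mat 4) := by
    have h1 := horb (leafOf (eD 1)) ⟨eD 1, eD_mem _, rfl⟩ ⟨eD (-1), eD_mem _⟩
      ⟨eD_mem _, by rw [ivt_eD, ivt_eD]; norm_num⟩
    have h2 : eD 1 ∈ leafOf (eD 1) := ⟨eD_mem _, rfl⟩
    rw [h1] at h2
    exact h2
  -- `φ` maps `exp (-tD)` to `exp (tD)` for `t ≥ 1`
  have hmap : ∀ t : ℝ, 1 ≤ t → (φ ⟨eD (-t), eD_mem _⟩ : Mat 4) = eD t := by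
    intro t ht
    refine rigid ht (φ ⟨eD (-t), eD_mem _⟩).2 (hpres φ hφ ⟨eD (-t), eD_mem _⟩) ?_
    have h1 := hiso φ hφ ⟨eD (-1), eD_mem _⟩ ⟨eD (-t), eD_mem _⟩
    rw [← hφe] at h1
    rw [h1]
    refine (rdist_eD _ _).trans (le_of_eq ?_)
    have : |-t - -1| = t - 1 := by rw [abs_of_nonpos (by linarith)]; ring
    rw [this]
  -- the image of `xN`
  obtain ⟨T, v, hT, hv, hx'⟩ := mem_SymSp (φ ⟨xN, xN_mem⟩).2
  have hv0 : v = fun _ => 0 := by
    have h1 := hpres φ hφ ⟨xN, xN_mem⟩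
    rw [hx'] at h1
    have h2 : ivt (pt T v) = (0, 0) := h1.trans ivt_xN
    unfold ivt at h2
    simp only [hh_pt hT, Prod.mk.injEq] at h2
    obtain ⟨h3, h4⟩ := h2
    rw [Fin.sum_univ_four] at hv
    have h5 : v 3 - v 0 = 0 := by
      have : (v 3 - v 0) ^ 2 = 0 := le_antisymm (by linarith [sq_nonneg (v 2 - v 1)]) (sq_nonneg _)
      exact pow_eq_zero_iff two_ne_zero |>.1 this
    have h6 : v 2 - v 1 = 0 := by
      have : (v 2 - v 1) ^ 2 = 0 := le_antisymm (by linarith [sq_nonneg (v 3 - v 0)]) (sq_nonneg _)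
      exact pow_eq_zero_iff two_ne_zero |>.1 this
    funext i
    fin_cases i <;> simp <;> linarith
  subst hv0
  have hDD : ∑ i, dD i ^ 2 = 2 := by simp [dD, Fin.sum_univ_four]; norm_num
  obtain ⟨C, hC0, hC⟩ := rdist_upper hT (D := dD)
    (by intro i j hij; fin_cases i <;> fin_cases j <;> first | (exfalso; revert hij; decide) | (simp [dD]; done))
    (by simp [dD, Fin.sum_univ_four]) (by rw [hDD]; norm_num)
  rw [hDD] at hC
  have hs2 : √2 ^ 2 = (2:ℝ) := Real.sq_sqrt (by norm_num)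
  have hs0 : 0 ≤ √2 := Real.sqrt_nonneg 2
  have hl2 : 0 < Real.log 2 := Real.log_pos (by norm_num)
  have main : ∀ t : ℝ, 1 ≤ t → (t + Real.log 2) ^ 2 + t ^ 2 ≤ (t * √2 + C / t) ^ 2 := by
    intro t ht
    have ht0 : 0 < t := by linarith
    have h1 := hiso φ hφ ⟨xN, xN_mem⟩ ⟨eD (-t), eD_mem _⟩
    rw [hmap t ht, hx'] at h1
    have h2 : rdist xN (eD (-t)) ≤ ENNReal.ofReal (t * √2 + C / t) := by
      rw [← h1]; exact hC t ht0
    have h3 := (ENNReal.ofReal_le_ofReal_iff (by positivity)).1 ((le_rdist' (P := xN) (Q := eD (-t))).trans h2)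
    have h4 := (Real.sqrt_le_iff.1 h3).2
    refine le_trans ?_ h4
    simp only [hm_eD]
    rw [Fin.sum_univ_four, xN_hm.1, xN_hm.2]
    have e0 : dD 0 = -1 := rfl
    have e3 : dD 3 = 1 := rfl
    rw [e0, e3]
    nlinarith [sq_nonneg (-t * dD 1 - hm' xN 1), sq_nonneg (-t * dD 2 - hm' xN 2)]
  -- contradiction for large `t`
  set t : ℝ := 1 + (2 * √2 * C + C ^ 2) / Real.log 2 with htdef
  have ht : 1 ≤ t := by
    have : 0 ≤ (2 * √2 * C + C ^ 2) / Real.log 2 := by positivity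
    linarith
  have ht0 : 0 < t := by linarith
  have h5 := main t ht
  have h6 : (t * √2 + C / t) ^ 2 = 2 * t ^ 2 + 2 * √2 * C + (C / t) ^ 2 := by
    have e : t * (C / t) = C := by field_simp
    calc (t * √2 + C / t) ^ 2 = t ^ 2 * √2 ^ 2 + 2 * √2 * (t * (C / t)) + (C / t) ^ 2 := by ring
      _ = _ := by rw [hs2, e]; ring
  have h7 : (C / t) ^ 2 ≤ C ^ 2 := by
    apply pow_le_pow_left₀ (by positivity)
    exact div_le_self hC0 ht
  have h8 : t * Real.log 2 = Real.log 2 + (2 * √2 * C + C ^ 2) := by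
    rw [htdef]; field_simp
  rw [h6] at h5
  nlinarith [sq_nonneg (Real.log 2)]

end Pool.Agent.H309R3
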