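import Pool.Agent.H309R3.Curves

set_option autoImplicit false
set_option linter.unusedVariables false

open scoped ContDiff Matrix Matrix.Norms.Operator Topology
open Finset Matrix

namespace Pool.Agent.H309R3

variable {n : ℕ}

lemma contDiff_mat {E : Type*} [NormedAddCommGroup E] [NormedSpace ℝ E] {k : WithTop ℕ∞}
    {f : E → Mat n} (h : ∀ i j, ContDiff ℝ k fun x => f x i j) : ContDiff ℝ k f := by
  have : f = fun x => ∑ i, ∑ j, f x i j • (Matrix.single i j (1:ℝ) : Mat n) := by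
    funext x
    conv_lhs => rw [Matrix.matrix_eq_sum_single (f x)]
    apply Finset.sum_congr rfl; intro i _
    apply Finset.sum_congr rfl; intro j _
    rw [Matrix.smul_single, smul_eq_mul, mul_one]
  rw [this]
  exact ContDiff.sum fun i _ => ContDiff.sum fun j _ => (h i j).smul contDiff_const

lemma contDiffOn_mat {E : Type*} [NormedAddCommGroup E] [NormedSpace ℝ E] {k : WithTop ℕ∞}
    {f : E → Mat n} {s : Set E} (h : ∀ i j, ContDiffOn ℝ k (fun x => f x i j) s) :
    ContDiffOn ℝ k f s := by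
  have : f = fun x => ∑ i, ∑ j, f x i j • (Matrix.single i j (1:ℝ) : Mat n) := by
    funext x
    conv_lhs => rw [Matrix.matrix_eq_sum_single (f x)]
    apply Finset.sum_congr rfl; intro i _
    apply Finset.sum_congr rfl; intro j _
    rw [Matrix.smul_single, smul_eq_mul, mul_one]
  rw [this]
  exact ContDiffOn.sum fun i _ => ContDiffOn.sum fun j _ => (h i j).smul contDiffOn_const

lemma ContDiff.entry {E : Type*} [NormedAddCommGroup E] [NormedSpace ℝ E] {k : WithTop ℕ∞}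
    {f : E → Mat n} (h : ContDiff ℝ k f) (i j : Fin n) : ContDiff ℝ k fun x => f x i j :=
  (contDiff_entry i j).comp h

lemma contDiff_adjugate {E : Type*} [NormedAddCommGroup E] [NormedSpace ℝ E] {k : WithTop ℕ∞}
    {f : E → Mat n} (h : ContDiff ℝ k f) : ContDiff ℝ k fun x => (f x).adjugate := by
  apply contDiff_mat
  intro i j
  simp only [Matrix.adjugate_apply, Matrix.det_apply]
  apply ContDiff.sum
  intro σ _
  apply ContDiff.const_smul
  apply contDiff_prod
  intro l _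
  simp only [Matrix.updateRow_apply]
  by_cases hl : σ l = j
  · simp only [hl, if_true]; exact contDiff_const
  · simp only [hl, if_false]; exact ContDiff.entry h _ _

lemma contDiff_mul {E : Type*} [NormedAddCommGroup E] [NormedSpace ℝ E] {k : WithTop ℕ∞}
    {f g : E → Mat n} (hf : ContDiff ℝ k f) (hg : ContDiff ℝ k g) :
    ContDiff ℝ k fun x => f x * g x := by
  apply contDiff_mat
  intro i j
  simp only [Matrix.mul_apply]
  exact ContDiff.sum fun l _ => (ContDiff.entry hf _ _).mul (ContDiff.entry hg _ _)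

lemma contDiff_transpose {E : Type*} [NormedAddCommGroup E] [NormedSpace ℝ E] {k : WithTop ℕ∞}
    {f : E → Mat n} (hf : ContDiff ℝ k f) : ContDiff ℝ k fun x => (f x)ᵀ :=
  contDiff_mat fun i j => ContDiff.entry hf j i

lemma contDiff_ed {E : Type*} [NormedAddCommGroup E] [NormedSpace ℝ E] {k : WithTop ℕ∞}
    {v : E → Fin n → ℝ} (h : ∀ i, ContDiff ℝ k fun x => v x i) : ContDiff ℝ k fun x => ed (v x) := by
  apply contDiff_mat
  intro i j
  unfold ed
  by_cases hij : i = j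
  · subst hij
    simp only [Matrix.diagonal_apply_eq]
    exact (h i).exp
  · simp only [Matrix.diagonal_apply_ne _ hij]; exact contDiff_const

lemma hasDerivAt_transpose {c : ℝ → Mat n} {X : Mat n} {t : ℝ} (h : HasDerivAt c X t) :
    HasDerivAt (fun t => (c t)ᵀ) Xᵀ t := by
  have hL : HasFDerivAt (fun A : Mat n => Aᵀ)
      (LinearMap.toContinuousLinearMap (Matrix.transposeLinearEquiv (Fin n) (Fin n) ℝ ℝ).toLinearMap) (c t) :=
    (LinearMap.toContinuousLinearMap (Matrix.transposeLinearEquiv (Fin n) (Fin n) ℝ ℝ).toLinearMap).hasFDerivAt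
  exact hL.comp_hasDerivAt t h

lemma hasDerivAt_diagonal {v : ℝ → Fin n → ℝ} {v' : Fin n → ℝ} {t : ℝ}
    (h : ∀ i, HasDerivAt (fun t => v t i) (v' i) t) :
    HasDerivAt (fun t => (Matrix.diagonal (v t) : Mat n)) (Matrix.diagonal v') t := by
  have hL : HasFDerivAt (fun w : Fin n → ℝ => (Matrix.diagonal w : Mat n))
      (LinearMap.toContinuousLinearMap (Matrix.diagonalLinearMap (Fin n) ℝ ℝ)) (v t) :=
    (LinearMap.toContinuousLinearMap (Matrix.diagonalLinearMap (Fin n) ℝ ℝ)).hasFDerivAt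
  exact hL.comp_hasDerivAt t (hasDerivAt_pi.2 h)

lemma diag_ed (w v : Fin n → ℝ) : Matrix.diagonal w * ed v = Matrix.diagonal fun i => Real.exp (v i) * w i := by
  unfold ed
  rw [Matrix.diagonal_mul_diagonal]
  congr 1; ext i; ring

lemma diag_comm_ed (w v : Fin n → ℝ) : Matrix.diagonal w * ed v = ed v * Matrix.diagonal w := by
  unfold ed
  rw [Matrix.diagonal_mul_diagonal, Matrix.diagonal_mul_diagonal]
  congr 1; ext i; ring

lemma hasDerivAt_ed {v : ℝ → Fin n → ℝ} {v' : Fin n → ℝ} {t : ℝ}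
    (h : ∀ i, HasDerivAt (fun t => v t i) (v' i) t) :
    HasDerivAt (fun t => ed (v t)) (Matrix.diagonal v' * ed (v t)) t := by
  rw [diag_ed]
  exact hasDerivAt_diagonal fun i => (h i).exp

lemma ed_half' (v w : Fin n → ℝ) :
    (ed fun i => v i / 2) * Matrix.diagonal w * (ed fun i => v i / 2) = Matrix.diagonal w * ed v := by
  rw [← diag_comm_ed, Matrix.mul_assoc, ed_half]

lemma diag_transpose (w : Fin n → ℝ) : (Matrix.diagonal w : Mat n)ᵀ = Matrix.diagonal w :=
  Matrix.diagonal_transpose _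

/-- derivative of a curve `A (exp v(t)) Aᵀ` -/
lemma hasDerivAt_line {v : ℝ → Fin n → ℝ} {v' : Fin n → ℝ} {t : ℝ} {T : Mat n}
    (h : ∀ i, HasDerivAt (fun t => v t i) (v' i) t) :
    HasDerivAt (fun t => pt T (v t)) (tg T (v t) * Matrix.diagonal v' * (tg T (v t))ᵀ) t := by
  have h1 := ((hasDerivAt_ed h).const_mul (1 + T)).mul_const (1 + T)ᵀ
  have h2 : tg T (v t) * Matrix.diagonal v' * (tg T (v t))ᵀ =
      (1 + T) * (Matrix.diagonal v' * ed (v t)) * (1 + T)ᵀ := by
    unfold tg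
    rw [Matrix.transpose_mul, ed_transpose, ← ed_half']
    simp only [Matrix.mul_assoc]
  rw [h2]
  exact h1

lemma tg_det {T : Mat n} (hT : SL T) (v : Fin n → ℝ) : (tg T v).det ≠ 0 :=
  det_ne_zero_of_LTr (tg_LTr hT v) (tg_pos hT v)

lemma gm_line {T : Mat n} (hT : SL T) (v w : Fin n → ℝ) :
    gm (pt T v) (tg T v * Matrix.diagonal w * (tg T v)ᵀ) (tg T v * Matrix.diagonal w * (tg T v)ᵀ) =
      ∑ i, w i ^ 2 := by
  rw [pt_eq, gm_gg (tg_det hT v), Matrix.diagonal_mul_diagonal, Matrix.trace_diagonal]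
  apply Finset.sum_congr rfl
  intro i _; ring

lemma SL_zero : SL (0 : Mat n) := fun i j _ => rfl

lemma pt_zero (v : Fin n → ℝ) : pt 0 v = ed v := by
  unfold pt; simp

lemma contDiff_pt_line {k : WithTop ℕ∞} (T : Mat n) {v : ℝ → Fin n → ℝ}
    (hv : ∀ i, ContDiff ℝ k fun t => v t i) : ContDiff ℝ k fun t => pt T (v t) :=
  contDiff_mul (contDiff_mul contDiff_const (contDiff_ed hv)) contDiff_const

lemma rdist_le {c : ℝ → Mat n} (hc : ContDiff ℝ 1 c) (hm : ∀ t, c t ∈ SymSp n) :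
    rdist (c 0) (c 1) ≤ ENNReal.ofReal (len c) :=
  iInf₂_le c ⟨hc, hm, rfl, rfl⟩

/-- upper bound for the distance of two points in a flat -/
lemma rdist_flat {T : Mat n} (hT : SL T) {v w : Fin n → ℝ} (hv : ∑ i, v i = 0)
    (hw : ∑ i, w i = 0) :
    rdist (pt T v) (pt T w) ≤ ENNReal.ofReal √(∑ i, (w i - v i) ^ 2) := by
  set u : ℝ → Fin n → ℝ := fun t i => v i + t * (w i - v i) with hu
  have hu' : ∀ t i, HasDerivAt (fun t => u t i) (w i - v i) t := by
    intro t i
    have := ((hasDerivAt_id' t).mul_const (w i - v i)).const_add (v i)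
    rw [one_mul] at this
    exact this
  have hc : ContDiff ℝ 1 fun t => pt T (u t) := by
    apply contDiff_pt_line
    intro i
    exact contDiff_const.add (contDiff_id.mul contDiff_const)
  have hsum : ∀ t, ∑ i, u t i = 0 := by
    intro t
    simp only [hu, Finset.sum_add_distrib, ← Finset.mul_sum, Finset.sum_sub_distrib, hv, hw]
    ring
  have h := rdist_le hc fun t => pt_mem hT (hsum t)
  have h0 : u 0 = v := by funext i; simp [hu]
  have h1 : u 1 = w := by funext i; simp [hu]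
  simp only [h0, h1] at h
  refine h.trans (ENNReal.ofReal_le_ofReal ?_)
  unfold len
  have : ∀ t, √(gm (pt T (u t)) (deriv (fun t => pt T (u t)) t) (deriv (fun t => pt T (u t)) t)) =
      √(∑ i, (w i - v i) ^ 2) := by
    intro t
    rw [show deriv (fun t => pt T (u t)) t = _ from (hasDerivAt_line (T := T) (hu' t)).deriv, gm_line hT]
  simp only [this]
  simp

lemma deriv_inv {c : ℝ → Mat n} {k : WithTop ℕ∞} (hk : k ≠ 0) (hc : ContDiff ℝ k c) (hm : ∀ t, c t ∈ SymSp n) :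
    ContDiff ℝ k (fun t => (c t)⁻¹) ∧
      ∀ t, deriv (fun t => (c t)⁻¹) t = - ((c t)⁻¹ * deriv c t * (c t)⁻¹) := by
  have h1 : (fun t => (c t)⁻¹) = fun t => (c t).adjugate := funext fun t => inv_eq_adj (hm t)
  have h2 : ContDiff ℝ k (fun t => (c t)⁻¹) := by rw [h1]; exact contDiff_adjugate hc
  refine ⟨h2, fun t => ?_⟩
  have h3 : HasDerivAt (fun t => (c t)⁻¹) (deriv (fun t => (c t)⁻¹) t) t :=
    ((h2.differentiable hk) t).hasDerivAt
  have h4 : HasDerivAt c (deriv c t) t := ((hc.differentiable hk) t).hasDerivAt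
  have h5 := h4.mul h3
  have hu : ∀ t, IsUnit (c t).det := fun t => by rw [(hm t).2]; exact isUnit_one
  have h6 : (c * fun t => (c t)⁻¹) = fun _ => (1 : Mat n) := by
    funext t; exact Matrix.mul_nonsing_inv _ (hu t)
  rw [h6] at h5
  have h7 := h5.unique (hasDerivAt_const t (1 : Mat n))
  have h8 : c t * deriv (fun t => (c t)⁻¹) t = - (deriv c t * (c t)⁻¹) := by
    rw [← add_eq_zero_iff_eq_neg, add_comm]; exact h7
  calc deriv (fun t => (c t)⁻¹) t = ((c t)⁻¹ * c t) * deriv (fun t => (c t)⁻¹) t := by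
        rw [Matrix.nonsing_inv_mul _ (hu t), Matrix.one_mul]
    _ = (c t)⁻¹ * (c t * deriv (fun t => (c t)⁻¹) t) := by rw [Matrix.mul_assoc]
    _ = _ := by rw [h8, Matrix.mul_neg, Matrix.mul_assoc]

lemma inv_mem {P : Mat n} (hP : P ∈ SymSp n) : P⁻¹ ∈ SymSp n := by
  refine ⟨hP.1.inv, ?_⟩
  rw [Matrix.det_nonsing_inv, hP.2]; simp

lemma len_inv {c : ℝ → Mat n} (hc : ContDiff ℝ 1 c) (hm : ∀ t, c t ∈ SymSp n) :
    len (fun t => (c t)⁻¹) = len c := by
  unfold len
  congr 1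
  funext t
  congr 1
  rw [(deriv_inv one_ne_zero hc hm).2 t]
  unfold gm
  have hu : IsUnit (c t).det := by rw [(hm t).2]; exact isUnit_one
  rw [Matrix.nonsing_inv_nonsing_inv _ hu]
  have h1 : c t * (c t)⁻¹ = 1 := Matrix.mul_nonsing_inv _ hu
  have h2 : c t * -((c t)⁻¹ * deriv c t * (c t)⁻¹) * c t * -((c t)⁻¹ * deriv c t * (c t)⁻¹) =
      (c t * (c t)⁻¹) * deriv c t * (c t)⁻¹ * (c t * (c t)⁻¹) * (deriv c t * (c t)⁻¹) := by
    simp only [Matrix.mul_neg, Matrix.neg_mul, neg_neg, Matrix.mul_assoc]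
  rw [h2, h1, Matrix.one_mul, Matrix.mul_one, ← Matrix.mul_assoc, Matrix.trace_mul_comm]
  simp only [Matrix.mul_assoc]

/-- the second Iwasawa projection -/
noncomputable def hm' (P : Mat n) (i : Fin n) : ℝ := - hh P⁻¹ i

lemma lip_len' {c : ℝ → Mat n} (hc : ContDiff ℝ 1 c) (hm : ∀ t, c t ∈ SymSp n) (w : Fin n → ℝ) :
    ∑ i, w i * (hm' (c 1) i - hm' (c 0) i) ≤ √(∑ i, w i ^ 2) * len c := by
  have h := lip_len (deriv_inv one_ne_zero hc hm).1 (fun t => inv_mem (hm t)) fun i => - w i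
  rw [len_inv hc hm] at h
  simp only [neg_sq] at h
  refine le_trans (le_of_eq ?_) h
  unfold hm'
  apply Finset.sum_congr rfl
  intro i _; ring

/-- vector form of the Lipschitz property -/
lemma norm_le_of_lip {f : Fin n → ℝ} {ℓ : ℝ} (hℓ : 0 ≤ ℓ)
    (h : ∀ w : Fin n → ℝ, ∑ i, w i * f i ≤ √(∑ i, w i ^ 2) * ℓ) : √(∑ i, f i ^ 2) ≤ ℓ := by
  have h1 := h f
  have h2 : ∑ i, f i * f i = √(∑ i, f i ^ 2) * √(∑ i, f i ^ 2) := by
    rw [Real.mul_self_sqrt (Finset.sum_nonneg fun i _ => sq_nonneg _)]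
    apply Finset.sum_congr rfl
    intro i _; ring
  rw [h2] at h1
  by_cases h0 : √(∑ i, f i ^ 2) = 0
  · rw [h0]; exact hℓ
  · have h3 : 0 < √(∑ i, f i ^ 2) := lt_of_le_of_ne (Real.sqrt_nonneg _) (Ne.symm h0)
    exact le_of_mul_le_mul_left h1 h3

lemma len_nonneg (c : ℝ → Mat n) : 0 ≤ len c :=
  intervalIntegral.integral_nonneg zero_le_one fun t _ => Real.sqrt_nonneg _

lemma le_rdist {P Q : Mat n} : ENNReal.ofReal √(∑ i, (hh Q i - hh P i) ^ 2) ≤ rdist P Q := by
  unfold rdist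
  apply le_iInf₂
  rintro c ⟨hc, hm, rfl, rfl⟩
  exact ENNReal.ofReal_le_ofReal (norm_le_of_lip (len_nonneg c) (lip_len hc hm))

lemma le_rdist' {P Q : Mat n} : ENNReal.ofReal √(∑ i, (hm' Q i - hm' P i) ^ 2) ≤ rdist P Q := by
  unfold rdist
  apply le_iInf₂
  rintro c ⟨hc, hm, rfl, rfl⟩
  exact ENNReal.ofReal_le_ofReal (norm_le_of_lip (len_nonneg c) (lip_len' hc hm))

end Pool.Agent.H309R3
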