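import Pool.Agent.H309R3.Trans

set_option autoImplicit false
set_option linter.unusedVariables false

open scoped ContDiff Matrix Matrix.Norms.Operator Topology
open Finset Matrix

namespace Pool.Agent.H309R3

/-- direction of the section -/
noncomputable def dirV (p q x y : ℝ) : Fin 4 → ℝ :=
  ![- (√2 / 2 * p * x) + y / 2, - (√2 / 2 * q * x) - y / 2, √2 / 2 * q * x - y / 2,
    √2 / 2 * p * x + y / 2]

lemma sum_dirV (p q x y : ℝ) : ∑ i, dirV p q x y i = 0 := by
  simp [dirV, Fin.sum_univ_four]; ring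

lemma hs2 : √2 / 2 * (√2 / 2) = (1/2 : ℝ) := by
  have : √2 * √2 = (2:ℝ) := Real.mul_self_sqrt (by norm_num)
  linear_combination this / 4

lemma sq_dirV {p q : ℝ} (h : p ^ 2 + q ^ 2 = 1) (x y : ℝ) :
    ∑ i, dirV p q x y i ^ 2 = x ^ 2 + y ^ 2 := by
  simp only [dirV, Fin.sum_univ_four, Matrix.cons_val_zero, Matrix.cons_val_one, Matrix.cons_val]
  have := hs2
  linear_combination (2 * (p ^ 2 + q ^ 2) * x ^ 2) * this + x ^ 2 * h

theorem hyperpolar : IsHyperpolar fol 2 := by
  rintro L ⟨P0, hP0, rfl⟩ - P hP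
  obtain ⟨T, v, hT, hv, rfl⟩ := mem_SymSp hP.1
  obtain ⟨θ, hθ1, hθ2⟩ := exists_angle (v 3 - v 0) (v 2 - v 1)
  set ρ := √((v 3 - v 0) ^ 2 + (v 2 - v 1) ^ 2) with hρ
  set p := Real.cos θ with hp
  set q := Real.sin θ with hq
  have hpq : p ^ 2 + q ^ 2 = 1 := by rw [hp, hq]; exact Real.cos_sq_add_sin_sq θ
  set V : EuclideanSpace ℝ (Fin 2) → Fin 4 → ℝ := fun u i => v i + dirV p q (u 0) (u 1) i with hV
  have hVsum : ∀ u, ∑ i, V u i = 0 := by
    intro u
    simp only [hV, Finset.sum_add_distrib, hv, sum_dirV, add_zero]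
  have hVline : ∀ (u w : EuclideanSpace ℝ (Fin 2)) (t : ℝ) (i : Fin 4),
      V (u + t • w) i = V u i + t * dirV p q (w 0) (w 1) i := by
    intro u w t i
    have h0 : (u + t • w) 0 = u 0 + t * w 0 := rfl
    have h1 : (u + t • w) 1 = u 1 + t * w 1 := rfl
    simp only [hV, h0, h1]
    fin_cases i <;> simp [dirV] <;> ring
  set f : EuclideanSpace ℝ (Fin 2) → Mat 4 := fun u => pt T (V u) with hf
  have hfc : ContDiff ℝ ∞ f := by
    have h0 : ContDiff ℝ ∞ fun u : EuclideanSpace ℝ (Fin 2) => u 0 :=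
      (EuclideanSpace.proj (𝕜 := ℝ) (0 : Fin 2)).contDiff
    have h1 : ContDiff ℝ ∞ fun u : EuclideanSpace ℝ (Fin 2) => u 1 :=
      (EuclideanSpace.proj (𝕜 := ℝ) (1 : Fin 2)).contDiff
    have hVc : ∀ i, ContDiff ℝ ∞ fun u => V u i := by
      intro i
      apply contDiff_const.add
      fin_cases i
      · exact (contDiff_const.mul h0).neg.add (h1.div_const 2)
      · exact (contDiff_const.mul h0).neg.sub (h1.div_const 2)
      · exact (contDiff_const.mul h0).sub (h1.div_const 2)
      · exact (contDiff_const.mul h0).add (h1.div_const 2)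
    exact contDiff_mul (contDiff_mul contDiff_const (contDiff_ed hVc)) contDiff_const
  have hfd : ∀ u w : EuclideanSpace ℝ (Fin 2), fderiv ℝ f u w =
      tg T (V u) * Matrix.diagonal (dirV p q (w 0) (w 1)) * (tg T (V u))ᵀ := by
    intro u w
    have hd : HasFDerivAt f (fderiv ℝ f u) u := ((hfc.differentiable (by simp)) u).hasFDerivAt
    have h1 : HasDerivAt (fun t : ℝ => u + t • w) w 0 := by
      have := ((hasDerivAt_id' (0:ℝ)).smul_const w).const_add u
      rw [one_smul] at this
      exact this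
    have h2 : HasDerivAt (fun t : ℝ => f (u + t • w)) (fderiv ℝ f u w) 0 := by
      apply HasFDerivAt.comp_hasDerivAt (x := (0:ℝ)) (l := f) _ h1
      rw [zero_smul, add_zero]
      exact hd
    have h3 : HasDerivAt (fun t : ℝ => f (u + t • w))
        (tg T (V (u + (0:ℝ) • w)) * Matrix.diagonal (dirV p q (w 0) (w 1)) * (tg T (V (u + (0:ℝ) • w)))ᵀ) 0 := by
      refine hasDerivAt_line (T := T) (v := fun t : ℝ => V (u + t • w)) fun i => ?_
      have e : (fun t : ℝ => V (u + t • w) i) = fun t => V u i + t * dirV p q (w 0) (w 1) i :=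
        funext fun t => hVline u w t i
      rw [e]
      have := ((hasDerivAt_id' (0:ℝ)).mul_const (dirV p q (w 0) (w 1) i)).const_add (V u i)
      rw [one_mul] at this
      exact this
    rw [zero_smul, add_zero] at h3
    exact h2.unique h3
  refine ⟨f, hfc, ?_, ?_, ?_, ?_, ?_, ?_⟩
  · -- injective
    intro u u' huu
    have h1 : ∀ i, V u i = V u' i := by
      intro i
      rw [← hh_pt hT (V u) i, ← hh_pt hT (V u') i]
      show hh (f u) i = hh (f u') i
      rw [huu]
    have e0 := h1 0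
    have e1 := h1 1
    have e2 := h1 2
    have e3 := h1 3
    simp only [hV, dirV, Matrix.cons_val_zero, Matrix.cons_val_one, Matrix.cons_val] at e0 e1 e2 e3
    have y1 : u 1 = u' 1 := by linarith
    have x1 : √2 / 2 * (p * (u 0 - u' 0)) = 0 := by linarith
    have x2 : √2 / 2 * (q * (u 0 - u' 0)) = 0 := by linarith
    have hs : √2 / 2 ≠ 0 := by positivity
    have x3 : p * (u 0 - u' 0) = 0 := (mul_eq_zero.1 x1).resolve_left hs
    have x4 : q * (u 0 - u' 0) = 0 := (mul_eq_zero.1 x2).resolve_left hs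
    have x0 : u 0 = u' 0 := by
      have : (u 0 - u' 0) = 0 := by
        linear_combination p * x3 + q * x4 - (u 0 - u' 0) * hpq
      linarith
    ext i
    fin_cases i
    · exact x0
    · exact y1
  · show pt T (V 0) = pt T v
    congr 1
    funext i
    have h0 : (0 : EuclideanSpace ℝ (Fin 2)) 0 = 0 := rfl
    have h1 : (0 : EuclideanSpace ℝ (Fin 2)) 1 = 0 := rfl
    simp only [hV, h0, h1]
    fin_cases i <;> simp [dirV]
  · intro u w
    rw [hfd]
    show gm (pt T (V u)) _ _ = _
    rw [gm_line hT, sq_dirV hpq, EuclideanSpace.real_norm_sq_eq, Fin.sum_univ_two]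
  · intro u w
    have h1 := isGeodesic_line hT (hVsum u) (sum_dirV p q (w 0) (w 1)) 0
    have e : (fun t : ℝ => f (u + t • w)) =
        fun t => pt T fun i => V u i + (t - 0) * dirV p q (w 0) (w 1) i := by
      funext t
      show pt T (V (u + t • w)) = _
      congr 1
      funext i
      rw [hVline, sub_zero]
    rw [e]; exact h1
  · rintro L' ⟨P', hP', rfl⟩
    set A := (ivt P').1 with hA
    have hA0 : 0 ≤ A := by rw [hA]; unfold ivt; positivity
    set u : EuclideanSpace ℝ (Fin 2) := !₂[(√A - ρ) * (√2 / 2), (ivt P').2 - (v 0 + v 3)] with hu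
    have u0 : u 0 = (√A - ρ) * (√2 / 2) := rfl
    have u1 : u 1 = (ivt P').2 - (v 0 + v 3) := rfl
    refine ⟨u, pt_mem hT (hVsum u), ?_⟩
    have hsq : √A ^ 2 = A := Real.sq_sqrt hA0
    have hss := hs2
    have d3 : V u 3 - V u 0 = √A * p := by
      simp only [hV, dirV, Matrix.cons_val_zero, Matrix.cons_val, u0, u1]
      linear_combination hθ1 + (2 * p * (√A - ρ)) * hss
    have d2 : V u 2 - V u 1 = √A * q := by
      simp only [hV, dirV, Matrix.cons_val_zero, Matrix.cons_val_one, Matrix.cons_val, u0, u1]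
      linear_combination hθ2 + (2 * q * (√A - ρ)) * hss
    have d1 : V u 0 + V u 3 = (ivt P').2 := by
      simp only [hV, dirV, Matrix.cons_val_zero, Matrix.cons_val, u0, u1]
      ring
    show ivt (pt T (V u)) = ivt P'
    refine Prod.ext ?_ ?_
    · show (hh (pt T (V u)) 3 - hh (pt T (V u)) 0) ^ 2 + (hh (pt T (V u)) 2 - hh (pt T (V u)) 1) ^ 2 = A
      simp only [hh_pt hT]
      rw [d3, d2]
      linear_combination hsq * (p ^ 2 + q ^ 2) + A * hpq
    · show hh (pt T (V u)) 0 + hh (pt T (V u)) 3 = (ivt P').2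
      simp only [hh_pt hT]
      exact d1
  · rintro L' ⟨P', hP', rfl⟩ u hu X hX w
    rw [hfd]
    apply orth_leaf hu hX hT rfl
    have d3 : V u 3 - V u 0 = (ρ + 2 * (√2 / 2) * u 0) * p := by
      simp only [hV, dirV, Matrix.cons_val_zero, Matrix.cons_val]
      linear_combination hθ1
    have d2 : V u 2 - V u 1 = (ρ + 2 * (√2 / 2) * u 0) * q := by
      simp only [hV, dirV, Matrix.cons_val_zero, Matrix.cons_val_one, Matrix.cons_val]
      linear_combination hθ2
    simp only [rotR, Fin.sum_univ_four, Matrix.cons_val_zero, Matrix.cons_val_one, Matrix.cons_val]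
    rw [d3, d2]
    simp only [dirV, Matrix.cons_val_zero, Matrix.cons_val_one, Matrix.cons_val]
    ring

end Pool.Agent.H309R3
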