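import Pool.Agent.H309R3.Fol

set_option autoImplicit false
set_option linter.unusedVariables false

open scoped ContDiff Matrix Matrix.Norms.Operator Topology
open Finset Matrix

namespace Pool.Agent.H309R3

lemma leafOf_congr {P Q : Mat 4} (h : ivt P = ivt Q) : leafOf P = leafOf Q := by
  unfold leafOf; rw [h]

lemma cover : ∀ P ∈ SymSp 4, ∃! L, L ∈ fol ∧ P ∈ L := by
  intro P hP
  refine ⟨leafOf P, ⟨⟨P, hP, rfl⟩, mem_leafOf_self hP⟩, ?_⟩
  rintro L ⟨⟨P', hP', rfl⟩, hm⟩
  exact (leafOf_congr hm.2).symm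

/-- symmetric space is closed -/
lemma isClosed_SymSp {n : ℕ} : IsClosed (SymSp n) := by
  have h1 : SymSp n = {P : Mat n | Pᵀ = P} ∩ ((⋂ x : Fin n → ℝ, {P : Mat n | 0 ≤ x ⬝ᵥ (P *ᵥ x)}) ∩
      {P : Mat n | P.det = 1}) := by
    ext P
    constructor
    · intro hP
      refine ⟨symm_of_mem hP, ?_, hP.2⟩
      rw [Set.mem_iInter]
      intro x
      have := (Matrix.posSemidef_iff_dotProduct_mulVec.1 hP.1.posSemidef).2 x
      simpa using this
    · rintro ⟨h2, h3, h4⟩
      rw [Set.mem_iInter] at h3
      have h5 : P.PosSemidef := by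
        apply Matrix.posSemidef_iff_dotProduct_mulVec.2
        refine ⟨h2, fun x => ?_⟩
        simpa using h3 x
      refine ⟨?_, h4⟩
      rw [h5.posDef_iff_det_ne_zero, h4]
      exact one_ne_zero
  rw [h1]
  apply IsClosed.inter
  · exact isClosed_eq continuous_id.matrix_transpose continuous_id
  · apply IsClosed.inter
    · apply isClosed_iInter
      intro x
      apply isClosed_le continuous_const
      exact Continuous.dotProduct continuous_const (Continuous.matrix_mulVec continuous_id continuous_const)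
    · exact isClosed_eq continuous_id.matrix_det continuous_const

lemma continuousOn_hh {n : ℕ} (i : Fin n) : ContinuousOn (fun A : Mat n => hh A i) (SymSp n) :=
  ((contDiffOn_hh i (m := 0)).continuousOn).mono SymSp_sub_U0

lemma isClosed_leaf (P : Mat 4) : IsClosed (leafOf P) := by
  have h1 : ContinuousOn ivt (SymSp 4) := by
    unfold ivt
    apply ContinuousOn.prodMk
    · exact (((continuousOn_hh 3).sub (continuousOn_hh 0)).pow 2).add
        (((continuousOn_hh 2).sub (continuousOn_hh 1)).pow 2)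
    · exact (continuousOn_hh 0).add (continuousOn_hh 3)
  exact h1.preimage_isClosed_of_isClosed isClosed_SymSp (isClosed_singleton (x := ivt P))

/-- polar angle -/
lemma exists_angle (a b : ℝ) : ∃ θ : ℝ, a = √(a ^ 2 + b ^ 2) * Real.cos θ ∧
    b = √(a ^ 2 + b ^ 2) * Real.sin θ := by
  refine ⟨Complex.arg ⟨a, b⟩, ?_⟩
  have h : ‖(⟨a, b⟩ : ℂ)‖ = √(a ^ 2 + b ^ 2) := by
    rw [Complex.norm_eq_sqrt_sq_add_sq]
  rw [← h]
  exact ⟨(Complex.norm_mul_cos_arg (⟨a, b⟩ : ℂ)).symm, (Complex.norm_mul_sin_arg (⟨a, b⟩ : ℂ)).symm⟩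

/-- parametrisation of a leaf -/
noncomputable def parV (A c θ : ℝ) : Fin 4 → ℝ :=
  ![(c - √A * Real.cos θ) / 2, (-c - √A * Real.sin θ) / 2, (-c + √A * Real.sin θ) / 2,
    (c + √A * Real.cos θ) / 2]

lemma sum_parV (A c θ : ℝ) : ∑ i, parV A c θ i = 0 := by
  simp [parV, Fin.sum_univ_four]; ring

lemma isConnected_leaf {P : Mat 4} (hP : P ∈ SymSp 4) : IsConnected (leafOf P) := by
  refine ⟨⟨P, mem_leafOf_self hP⟩, ?_⟩
  set A := (ivt P).1 with hA
  set c := (ivt P).2 with hc
  have hA0 : 0 ≤ A := by rw [hA]; unfold ivt; positivity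
  set D : Set (ℝ × Mat 4) := Set.univ ×ˢ {T | SL T} with hD
  have hDc : IsPreconnected D := by
    apply isPreconnected_univ.prod
    apply Convex.isPreconnected
    intro S hS T hT a b ha hb hab i j hij
    rw [Matrix.add_apply, Matrix.smul_apply, Matrix.smul_apply, hS i j hij, hT i j hij]
    simp
  have hf : Continuous fun z : ℝ × Mat 4 => pt z.2 (parV A c z.1) := by
    have h1 : ContDiff ℝ 0 fun z : ℝ × Mat 4 => (ed (parV A c z.1) : Mat 4) := by
      apply contDiff_ed
      intro i
      have hcos : ContDiff ℝ 0 fun z : ℝ × Mat 4 => Real.cos z.1 := Real.contDiff_cos.comp contDiff_fst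
      have hsin : ContDiff ℝ 0 fun z : ℝ × Mat 4 => Real.sin z.1 := Real.contDiff_sin.comp contDiff_fst
      fin_cases i
      · exact (contDiff_const.sub (contDiff_const.mul hcos)).div_const 2
      · exact (contDiff_const.sub (contDiff_const.mul hsin)).div_const 2
      · exact (contDiff_const.add (contDiff_const.mul hsin)).div_const 2
      · exact (contDiff_const.add (contDiff_const.mul hcos)).div_const 2
    have h2 : ContDiff ℝ 0 fun z : ℝ × Mat 4 => (1 : Mat 4) + z.2 := contDiff_const.add contDiff_snd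
    exact (contDiff_mul (contDiff_mul h2 h1) (contDiff_transpose h2)).continuous
  have himg : leafOf P = (fun z : ℝ × Mat 4 => pt z.2 (parV A c z.1)) '' D := by
    ext Q
    constructor
    · rintro ⟨hQ, hi⟩
      obtain ⟨T, v, hT, hv, rfl⟩ := mem_SymSp hQ
      have h1 : (v 3 - v 0) ^ 2 + (v 2 - v 1) ^ 2 = A := by
        have := congrArg Prod.fst hi
        unfold ivt at this
        simp only [hh_pt hT] at this
        rw [this]; rfl
      have h2 : v 0 + v 3 = c := by
        have := congrArg Prod.snd hi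
        unfold ivt at this
        simp only [hh_pt hT] at this
        rw [this]; rfl
      obtain ⟨θ, e1, e2⟩ := exists_angle (v 3 - v 0) (v 2 - v 1)
      rw [h1] at e1 e2
      refine ⟨(θ, T), ⟨Set.mem_univ _, hT⟩, ?_⟩
      show pt T (parV A c θ) = pt T v
      congr 1
      rw [Fin.sum_univ_four] at hv
      funext i
      fin_cases i <;> simp [parV] <;> linarith
    · rintro ⟨⟨θ, T⟩, ⟨_, hT⟩, rfl⟩
      have hT' : SL T := hT
      refine ⟨pt_mem hT' (sum_parV _ _ _), ?_⟩
      have h3 : ivt P = (A, c) := rfl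
      rw [h3]
      unfold ivt
      simp only [hh_pt hT']
      have hs : √A ^ 2 = A := Real.sq_sqrt hA0
      ext
      · simp only [parV, Matrix.cons_val_zero, Matrix.cons_val_one, Matrix.cons_val]
        have := Real.sin_sq_add_cos_sq θ
        have e : A = √A ^ 2 * (Real.sin θ ^ 2 + Real.cos θ ^ 2) := by rw [this, mul_one, hs]
        rw [e, hs]
        have e2 : √(A * (Real.sin θ ^ 2 + Real.cos θ ^ 2)) = √A := by rw [this, mul_one]
        rw [e2]
        nlinarith [hs]
      · simp only [parV, Matrix.cons_val_zero, Matrix.cons_val_one, Matrix.cons_val]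
        ring
  rw [himg]
  exact hDc.image _ hf.continuousOn

end Pool.Agent.H309R3
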