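import Pool.Agent.H309R3.Basic

set_option autoImplicit false
set_option linter.unusedVariables false

open scoped ContDiff Matrix Matrix.Norms.Operator Topology
open Finset Matrix

namespace Pool.Agent.H309R3

variable {n : ℕ}

/-- an entry as a continuous linear map -/
noncomputable def entL (i j : Fin n) : Mat n →L[ℝ] ℝ :=
  LinearMap.toContinuousLinearMap (Matrix.entryLinearMap ℝ ℝ i j)

@[simp] lemma entL_apply (i j : Fin n) (A : Mat n) : entL i j A = A i j := rfl

lemma contDiff_entry (i j : Fin n) {k : WithTop ℕ∞} : ContDiff ℝ k fun A : Mat n => A i j :=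
  (entL i j).contDiff

lemma contDiff_lm (k : ℕ) {m : WithTop ℕ∞} : ContDiff ℝ m (lm k : Mat n → ℝ) := by
  unfold lm
  simp only [Matrix.det_apply]
  apply ContDiff.sum
  intro σ _
  apply ContDiff.const_smul
  apply contDiff_prod
  intro i _
  exact contDiff_entry _ _

lemma isOpen_U0 : IsOpen (U0 : Set (Mat n)) := by
  have : (U0 : Set (Mat n)) = ⋂ k ∈ Finset.range (n+1), {A | 0 < lm k A} := by
    ext A
    simp [U0]
  rw [this]
  apply isOpen_biInter_finset
  intro k _
  exact isOpen_lt continuous_const (contDiff_lm k (m := 0)).continuous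

lemma contDiffOn_hh (i : Fin n) {m : WithTop ℕ∞} : ContDiffOn ℝ m (fun A : Mat n => hh A i) U0 := by
  unfold hh
  apply ContDiffOn.sub
  · apply ContDiffOn.log (contDiff_lm _).contDiffOn
    intro A hA
    exact (hA _ i.2).ne'
  · apply ContDiffOn.log (contDiff_lm _).contDiffOn
    intro A hA
    exact (hA _ i.2.le).ne'

lemma hasDerivAt_lm_line (k : ℕ) (Y : Mat n) :
    HasDerivAt (fun r : ℝ => lm k (1 + r • Y)) (∑ i ∈ univ.filter (fun i : Fin n => (i:ℕ) < k), Y i i) 0 := by
  have h1 : ∀ r : ℝ, lm k (1 + r • Y) = 1 + (blk k Y).trace * r +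
      ((det (1 + (Polynomial.X : Polynomial ℝ) • (blk k Y).map Polynomial.C)).divX.divX).eval r * r ^ 2 := by
    intro r
    rw [← Matrix.det_one_add_smul]
    unfold lm
    congr 1
    ext i j
    simp [blk, Matrix.one_apply, Subtype.ext_iff]
  have h2 : (blk k Y).trace = ∑ i ∈ univ.filter (fun i : Fin n => (i:ℕ) < k), Y i i := by
    rw [Finset.sum_subtype (univ.filter fun i : Fin n => (i:ℕ) < k) (p := fun i : Fin n => (i:ℕ) < k)
      (by simp)]
    rfl
  rw [← h2]
  set p := (det (1 + (Polynomial.X : Polynomial ℝ) • (blk k Y).map Polynomial.C)).divX.divX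
  have h3 : HasDerivAt (fun r : ℝ => 1 + (blk k Y).trace * r + p.eval r * r ^ 2)
      (0 + (blk k Y).trace * 1 + (p.derivative.eval 0 * (0:ℝ) ^ 2 + p.eval 0 * (2 * (0:ℝ) ^ (2-1) * 1))) 0 := by
    apply HasDerivAt.add
    · apply HasDerivAt.add (hasDerivAt_const _ _)
      exact (hasDerivAt_id _).const_mul _
    · apply HasDerivAt.mul (p.hasDerivAt 0)
      exact HasDerivAt.fun_pow (hasDerivAt_id' (0:ℝ)) 2
  have h4 := h3.congr_of_eventuallyEq (Filter.Eventually.of_forall h1)
  refine h4.congr_deriv ?_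
  simp

lemma hasDerivAt_lm {q : ℝ → Mat n} {Y : Mat n} {t0 : ℝ} (h0 : q t0 = 1) (h : HasDerivAt q Y t0)
    (k : ℕ) :
    HasDerivAt (fun t => lm k (q t)) (∑ i ∈ univ.filter (fun i : Fin n => (i:ℕ) < k), Y i i) t0 := by
  have hd : HasFDerivAt (lm k : Mat n → ℝ) (fderiv ℝ (lm k) 1) 1 :=
    ((contDiff_lm k (m := 1)).differentiable (by simp) 1).hasFDerivAt
  have h1 : HasDerivAt (fun r : ℝ => (1 : Mat n) + r • Y) Y 0 := by
    have := ((hasDerivAt_id' (0:ℝ)).smul_const Y).const_add (1 : Mat n)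
    rw [one_smul] at this
    exact this
  have h2 : HasDerivAt (fun r : ℝ => lm k ((1 : Mat n) + r • Y)) (fderiv ℝ (lm k) 1 Y) 0 := by
    apply HasFDerivAt.comp_hasDerivAt (x := (0:ℝ)) (l := (lm k : Mat n → ℝ)) _ h1
    rw [zero_smul, add_zero]
    exact hd
  have h3 := h2.unique (hasDerivAt_lm_line k Y)
  rw [← h3]
  apply HasFDerivAt.comp_hasDerivAt (x := t0) (l := (lm k : Mat n → ℝ)) _ h
  rw [h0]; exact hd

end Pool.Agent.H309R3
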