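import Pool.Agent.H309R3.SRF

set_option autoImplicit false
set_option linter.unusedVariables false

open scoped ContDiff Matrix Matrix.Norms.Operator Topology
open Finset Matrix

namespace Pool.Agent.H309R3

/-- derivative of `hh` in the direction `vf w Q` -/
lemma fderiv_vf {k : ℕ} {F : Mat 4 → (Fin k → ℝ)} (hF : ContDiffOn ℝ ∞ F U0) {Q : Mat 4}
    (hQ : Q ∈ SymSp 4) {w : Fin 4 → ℝ} {y : Fin k → ℝ}
    (h : ∀ j, HasDerivAt (fun t : ℝ => F (act (fun i => t * w i) Q) j) (y j) 0) :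
    fderiv ℝ F Q (vf w Q) = y := by
  have hd : HasFDerivAt F (fderiv ℝ F Q) Q :=
    ((hF.contDiffAt (isOpen_U0.mem_nhds (SymSp_sub_U0 hQ))).differentiableAt (by simp)).hasFDerivAt
  have hw' : ∀ i, HasDerivAt (fun t : ℝ => t * w i) (w i) 0 := by
    intro i
    have := (hasDerivAt_id' (0:ℝ)).mul_const (w i)
    rw [one_mul] at this
    exact this
  have h1 : HasDerivAt (fun t : ℝ => act (fun i => t * w i) Q) (vf w Q) 0 :=
    hasDerivAt_act Q (by funext i; simp) hw'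
  have h0 : act (fun i => (0:ℝ) * w i) Q = Q := by
    unfold act
    simp [ed_zero]
  have h2 : HasDerivAt (fun t : ℝ => F (act (fun i => t * w i) Q)) (fderiv ℝ F Q (vf w Q)) 0 := by
    apply HasFDerivAt.comp_hasDerivAt (x := (0:ℝ)) (l := F) _ h1
    rw [h0]; exact hd
  exact h2.unique (hasDerivAt_pi.2 h)

lemma hasDerivAt_hh_act {Q : Mat 4} (hQ : Q ∈ SymSp 4) (w : Fin 4 → ℝ) (i : Fin 4) :
    HasDerivAt (fun t : ℝ => hh (act (fun i => t * w i) Q) i) (w i) 0 := by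
  have e : (fun t : ℝ => hh (act (fun i => t * w i) Q) i) = fun t => hh Q i + t * w i := by
    funext t; exact hh_act (SymSp_sub_U0 hQ) _ i
  rw [e]
  have := ((hasDerivAt_id' (0:ℝ)).mul_const (w i)).const_add (hh Q i)
  rw [one_mul] at this
  exact this

lemma act_zero (w : Fin 4 → ℝ) (Q : Mat 4) : act (fun i => (0:ℝ) * w i) Q = Q := by
  unfold act
  simp [ed_zero]

lemma contDiffOn_pi' {k : ℕ} {F : Mat 4 → (Fin k → ℝ)} (h : ∀ j, ContDiffOn ℝ ∞ (fun Q => F Q j) U0) :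
    ContDiffOn ℝ ∞ F U0 := contDiffOn_pi.2 h

/-- regular leaves have codimension two -/
lemma sub_regular {P : Mat 4} (hP : P ∈ SymSp 4) (hA : (ivt P).1 ≠ 0) :
    IsSubmanifold (leafOf P) 2 := by
  refine ⟨fun Q hQ => hQ.1, fun Q0 hQ0 => ?_⟩
  set F : Mat 4 → (Fin 2 → ℝ) := fun Q =>
    ![(hh Q 3 - hh Q 0) ^ 2 + (hh Q 2 - hh Q 1) ^ 2 - (ivt P).1, hh Q 0 + hh Q 3 - (ivt P).2] with hFdef
  have hF : ContDiffOn ℝ ∞ F U0 := by
    apply contDiffOn_pi'
    intro j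
    fin_cases j
    · exact ((((contDiffOn_hh 3).sub (contDiffOn_hh 0)).pow 2).add
        (((contDiffOn_hh 2).sub (contDiffOn_hh 1)).pow 2)).sub contDiffOn_const
    · exact ((contDiffOn_hh 0).add (contDiffOn_hh 3)).sub contDiffOn_const
  refine ⟨U0, F, isOpen_U0, SymSp_sub_U0 hQ0.1, hF, ?_, ?_⟩
  · ext Q
    constructor
    · rintro ⟨⟨hQ, hi⟩, hU⟩
      refine ⟨hQ, hU, ?_⟩
      have h1 : (hh Q 3 - hh Q 0) ^ 2 + (hh Q 2 - hh Q 1) ^ 2 = (ivt P).1 := congrArg Prod.fst hi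
      have h2 : hh Q 0 + hh Q 3 = (ivt P).2 := congrArg Prod.snd hi
      funext j
      fin_cases j
      · show (hh Q 3 - hh Q 0) ^ 2 + (hh Q 2 - hh Q 1) ^ 2 - (ivt P).1 = 0
        rw [h1, sub_self]
      · show hh Q 0 + hh Q 3 - (ivt P).2 = 0
        rw [h2, sub_self]
    · rintro ⟨hQ, hU, hz⟩
      refine ⟨⟨hQ, ?_⟩, hU⟩
      have h1 : (hh Q 3 - hh Q 0) ^ 2 + (hh Q 2 - hh Q 1) ^ 2 - (ivt P).1 = 0 := congrFun hz 0
      have h2 : hh Q 0 + hh Q 3 - (ivt P).2 = 0 := congrFun hz 1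
      exact Prod.ext (sub_eq_zero.1 h1) (sub_eq_zero.1 h2)
  · rintro Q ⟨⟨hQ, hi⟩, hU⟩ y
    have h1 : (hh Q 3 - hh Q 0) ^ 2 + (hh Q 2 - hh Q 1) ^ 2 = (ivt P).1 := congrArg Prod.fst hi
    set a := hh Q 3 - hh Q 0 with ha
    set b := hh Q 2 - hh Q 1 with hb
    set A := (ivt P).1 with hAdef
    set w : Fin 4 → ℝ := ![(y 1 - a * y 0 / (2 * A)) / 2, (- y 1 - b * y 0 / (2 * A)) / 2,
      (- y 1 + b * y 0 / (2 * A)) / 2, (y 1 + a * y 0 / (2 * A)) / 2] with hw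
    have w0 : w 0 = (y 1 - a * y 0 / (2 * A)) / 2 := rfl
    have w1 : w 1 = (- y 1 - b * y 0 / (2 * A)) / 2 := rfl
    have w2 : w 2 = (- y 1 + b * y 0 / (2 * A)) / 2 := rfl
    have w3 : w 3 = (y 1 + a * y 0 / (2 * A)) / 2 := rfl
    have hw0 : ∑ i, w i = 0 := by rw [Fin.sum_univ_four, w0, w1, w2, w3]; ring
    refine ⟨vf w Q, tan_act hQ hw0, fderiv_vf hF hQ ?_⟩
    intro j
    have d := hasDerivAt_hh_act hQ w
    fin_cases j
    · have := ((((d 3).sub (d 0)).pow 2).add (((d 2).sub (d 1)).pow 2)).sub_const A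
      refine this.congr_deriv ?_
      simp only [Pi.sub_apply, act_zero, ← ha, ← hb, w0, w1, w2, w3]
      show _ = y 0
      have hA' : A ≠ 0 := hA
      field_simp
      rw [← h1]; ring
    · have := ((d 0).add (d 3)).sub_const (ivt P).2
      refine this.congr_deriv ?_
      rw [w0, w3]
      show _ = y 1
      ring

/-- singular leaves have codimension three -/
lemma sub_singular {P : Mat 4} (hP : P ∈ SymSp 4) (hA : (ivt P).1 = 0) :
    IsSubmanifold (leafOf P) 3 := by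
  refine ⟨fun Q hQ => hQ.1, fun Q0 hQ0 => ?_⟩
  set F : Mat 4 → (Fin 3 → ℝ) := fun Q =>
    ![hh Q 3 - hh Q 0, hh Q 2 - hh Q 1, hh Q 0 + hh Q 3 - (ivt P).2] with hFdef
  have hF : ContDiffOn ℝ ∞ F U0 := by
    apply contDiffOn_pi'
    intro j
    fin_cases j
    · exact (contDiffOn_hh 3).sub (contDiffOn_hh 0)
    · exact (contDiffOn_hh 2).sub (contDiffOn_hh 1)
    · exact ((contDiffOn_hh 0).add (contDiffOn_hh 3)).sub contDiffOn_const
  refine ⟨U0, F, isOpen_U0, SymSp_sub_U0 hQ0.1, hF, ?_, ?_⟩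
  · ext Q
    constructor
    · rintro ⟨⟨hQ, hi⟩, hU⟩
      refine ⟨hQ, hU, ?_⟩
      have h1 : (hh Q 3 - hh Q 0) ^ 2 + (hh Q 2 - hh Q 1) ^ 2 = 0 := by
        rw [← hA]; exact congrArg Prod.fst hi
      have h2 : hh Q 0 + hh Q 3 = (ivt P).2 := congrArg Prod.snd hi
      funext j
      fin_cases j
      · show hh Q 3 - hh Q 0 = 0
        have : (hh Q 3 - hh Q 0) ^ 2 = 0 :=
          le_antisymm (by linarith [sq_nonneg (hh Q 2 - hh Q 1)]) (sq_nonneg _)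
        exact pow_eq_zero_iff two_ne_zero |>.1 this
      · show hh Q 2 - hh Q 1 = 0
        have : (hh Q 2 - hh Q 1) ^ 2 = 0 :=
          le_antisymm (by linarith [sq_nonneg (hh Q 3 - hh Q 0)]) (sq_nonneg _)
        exact pow_eq_zero_iff two_ne_zero |>.1 this
      · show hh Q 0 + hh Q 3 - (ivt P).2 = 0
        rw [h2, sub_self]
    · rintro ⟨hQ, hU, hz⟩
      refine ⟨⟨hQ, ?_⟩, hU⟩
      have h0 : hh Q 3 - hh Q 0 = 0 := congrFun hz 0
      have h1 : hh Q 2 - hh Q 1 = 0 := congrFun hz 1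
      have h2 : hh Q 0 + hh Q 3 - (ivt P).2 = 0 := congrFun hz 2
      refine Prod.ext ?_ (sub_eq_zero.1 h2)
      show (hh Q 3 - hh Q 0) ^ 2 + (hh Q 2 - hh Q 1) ^ 2 = (ivt P).1
      rw [h0, h1, hA]; norm_num
  · rintro Q ⟨⟨hQ, hi⟩, hU⟩ y
    set w : Fin 4 → ℝ := ![(y 2 - y 0) / 2, (- y 2 - y 1) / 2, (- y 2 + y 1) / 2,
      (y 2 + y 0) / 2] with hw
    have w0 : w 0 = (y 2 - y 0) / 2 := rfl
    have w1 : w 1 = (- y 2 - y 1) / 2 := rfl
    have w2 : w 2 = (- y 2 + y 1) / 2 := rfl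
    have w3 : w 3 = (y 2 + y 0) / 2 := rfl
    have hw0 : ∑ i, w i = 0 := by rw [Fin.sum_univ_four, w0, w1, w2, w3]; ring
    refine ⟨vf w Q, tan_act hQ hw0, fderiv_vf hF hQ ?_⟩
    intro j
    have d := hasDerivAt_hh_act hQ w
    fin_cases j
    · have := (d 3).sub (d 0)
      refine this.congr_deriv ?_
      rw [w0, w3]
      show _ = y 0
      ring
    · have := (d 2).sub (d 1)
      refine this.congr_deriv ?_
      rw [w1, w2]
      show _ = y 1
      ring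
    · have := ((d 0).add (d 3)).sub_const (ivt P).2
      refine this.congr_deriv ?_
      rw [w0, w3]
      show _ = y 2
      ring

end Pool.Agent.H309R3
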