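import Pool.Agent.H309R3.Inhom

set_option autoImplicit false
set_option linter.unusedVariables false

open scoped ContDiff Matrix Matrix.Norms.Operator Topology
open Finset Matrix

namespace Pool.Agent.H309R3

variable {n : ℕ}

/-- action of a diagonal matrix -/
noncomputable def act (u : Fin n → ℝ) (Q : Mat n) : Mat n :=
  (ed fun i => u i / 2) * Q * (ed fun i => u i / 2)

/-- its velocity -/
noncomputable def vf (w : Fin n → ℝ) (Q : Mat n) : Mat n :=
  (1/2 : ℝ) • (Matrix.diagonal w * Q + Q * Matrix.diagonal w)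

lemma ed_LTr (u : Fin n → ℝ) : LTr (ed u) := by
  intro i j hij
  unfold ed
  rw [Matrix.diagonal_apply_ne _ hij.ne]

lemma ed_diag (u : Fin n → ℝ) (i : Fin n) : ed u i i = Real.exp (u i) := by
  unfold ed; rw [Matrix.diagonal_apply_eq]

lemma hh_act {Q : Mat n} (hQ : Q ∈ U0) (u : Fin n → ℝ) (i : Fin n) :
    hh (act u Q) i = hh Q i + u i := by
  have h := hh_conj (ed_LTr fun i => u i / 2) (fun i => by rw [ed_diag]; exact Real.exp_pos _) hQ i
  rw [ed_transpose, ed_diag, Real.log_exp] at h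
  unfold act
  rw [h]; ring

lemma conj_mem {g : Mat n} (hg : g.det ^ 2 = 1) {Q : Mat n} (hQ : Q ∈ SymSp n) :
    g * Q * gᵀ ∈ SymSp n := by
  have h0 : g.det ≠ 0 := by
    intro h; rw [h] at hg; norm_num at hg
  refine ⟨posDef_conj hQ.1 h0, ?_⟩
  rw [det_mul, det_mul, det_transpose, hQ.2]
  linarith

lemma act_mem {Q : Mat n} (hQ : Q ∈ SymSp n) {u : Fin n → ℝ} (hu : ∑ i, u i = 0) :
    act u Q ∈ SymSp n := by
  have h := conj_mem (g := ed fun i => u i / 2) (by
    rw [det_ed, ← Finset.sum_div, hu]; simp) hQ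
  rw [ed_transpose] at h
  exact h

lemma hasDerivAt_act {u : ℝ → Fin n → ℝ} {w : Fin n → ℝ} (Q : Mat n) (h0 : u 0 = fun _ => 0)
    (h : ∀ i, HasDerivAt (fun t => u t i) (w i) 0) :
    HasDerivAt (fun t => act (u t) Q) (vf w Q) 0 := by
  have h1 : HasDerivAt (fun t => ed fun i => u t i / 2) (Matrix.diagonal fun i => w i / 2) 0 := by
    have := hasDerivAt_ed (v := fun t i => u t i / 2) (v' := fun i => w i / 2) (t := 0)
      (fun i => (h i).div_const 2)
    have e : (fun i => u 0 i / 2) = fun _ => (0:ℝ) := by rw [h0]; funext i; simp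
    simp only [e, ed_zero, Matrix.mul_one] at this
    exact this
  have h2 := (h1.mul_const Q).mul h1
  refine h2.congr_deriv ?_
  have e : (ed fun i => u 0 i / 2 : Mat n) = 1 := by
    have : (fun i => u 0 i / 2) = fun _ => (0:ℝ) := by rw [h0]; funext i; simp
    rw [this, ed_zero]
  rw [e, Matrix.mul_one, Matrix.one_mul]
  unfold vf
  have e2 : (Matrix.diagonal fun i => w i / 2 : Mat n) = (1/2 : ℝ) • Matrix.diagonal w := by
    rw [← Matrix.diagonal_smul]; congr 1; funext i; simp; ring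
  rw [e2, smul_add]
  simp only [Matrix.smul_mul, Matrix.mul_smul]

lemma contDiff_act {u : ℝ → Fin n → ℝ} (Q : Mat n) {k : WithTop ℕ∞}
    (h : ∀ i, ContDiff ℝ k fun t => u t i) : ContDiff ℝ k fun t => act (u t) Q := by
  have h1 : ContDiff ℝ k fun t => (ed fun i => u t i / 2 : Mat n) :=
    contDiff_ed fun i => (h i).div_const 2
  exact contDiff_mul (contDiff_mul h1 contDiff_const) h1

lemma tan_act {Q : Mat n} (hQ : Q ∈ SymSp n) {w : Fin n → ℝ} (hw : ∑ i, w i = 0) :
    TanVec (SymSp n) Q (vf w Q) := by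
  refine ⟨fun t => act (fun i => t * w i) Q, ?_, ?_, ?_, ?_⟩
  · exact contDiff_act Q fun i => contDiff_id.mul contDiff_const
  · intro t
    exact act_mem hQ (by rw [← Finset.mul_sum, hw, mul_zero])
  · show act (fun i => 0 * w i) Q = Q
    unfold act
    simp [ed_zero]
  · refine (hasDerivAt_act Q (by funext i; simp) fun i => ?_).deriv
    have := (hasDerivAt_id' (0:ℝ)).mul_const (w i)
    rw [one_mul] at this
    exact this

lemma SL_mul_LTr {T A : Mat n} (hT : SL T) (hA : LTr A) : SL (T * A) := by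
  intro i j hij
  rw [Matrix.mul_apply]
  apply Finset.sum_eq_zero
  intro k _
  rcases le_or_gt i k with h | h
  · rw [hT i k h, zero_mul]
  · rw [hA k j (h.trans_le hij), mul_zero]

lemma hh_unip {B : Mat n} (hB : SL B) {Q : Mat n} (hQ : Q ∈ U0) (i : Fin n) :
    hh ((1 + B) * Q * (1 + B)ᵀ) i = hh Q i := by
  rw [hh_conj (unip_LTr hB) (fun i => by rw [unip_diag hB]; exact one_pos) hQ, unip_diag hB]
  simp

/-- the curve `(1+tB) act(u(t)) Q (1+tB)ᵀ` and its velocity -/
lemma hasDerivAt_move {u : ℝ → Fin n → ℝ} {w : Fin n → ℝ} (B Q : Mat n) (h0 : u 0 = fun _ => 0)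
    (h : ∀ i, HasDerivAt (fun t => u t i) (w i) 0) :
    HasDerivAt (fun t : ℝ => (1 + t • B) * act (u t) Q * (1 + t • B)ᵀ)
      (B * Q + Q * Bᵀ + vf w Q) 0 := by
  have h1 : HasDerivAt (fun t : ℝ => (1 : Mat n) + t • B) B 0 := by
    have := ((hasDerivAt_id' (0:ℝ)).smul_const B).const_add (1 : Mat n)
    rw [one_smul] at this
    exact this
  have h2 := (h1.mul (hasDerivAt_act Q h0 h)).mul (hasDerivAt_transpose h1)
  refine h2.congr_deriv ?_
  have e : act (u 0) Q = Q := by
    rw [h0]; unfold act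
    simp [ed_zero]
  simp only [Pi.mul_apply, zero_smul, add_zero, Matrix.transpose_one, Matrix.mul_one, Matrix.one_mul, e]
  abel

lemma contDiff_move {u : ℝ → Fin n → ℝ} (B Q : Mat n) {k : WithTop ℕ∞}
    (h : ∀ i, ContDiff ℝ k fun t => u t i) :
    ContDiff ℝ k fun t : ℝ => (1 + t • B) * act (u t) Q * (1 + t • B)ᵀ := by
  have h1 : ContDiff ℝ k fun t : ℝ => (1 : Mat n) + t • B :=
    contDiff_const.add (contDiff_id.smul contDiff_const)
  exact contDiff_mul (contDiff_mul h1 (contDiff_act Q h)) (contDiff_transpose h1)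

lemma move_mem {B Q : Mat n} (hB : SL B) (hQ : Q ∈ SymSp n) {u : Fin n → ℝ} (hu : ∑ i, u i = 0)
    (t : ℝ) : (1 + t • B) * act u Q * (1 + t • B)ᵀ ∈ SymSp n := by
  apply conj_mem _ (act_mem hQ hu)
  rw [det_unip (SL_smul hB t)]; norm_num

lemma hh_move {B Q : Mat n} (hB : SL B) (hQ : Q ∈ SymSp n) {u : Fin n → ℝ} (hu : ∑ i, u i = 0)
    (t : ℝ) (i : Fin n) : hh ((1 + t • B) * act u Q * (1 + t • B)ᵀ) i = hh Q i + u i := by
  rw [hh_unip (SL_smul hB t) (SymSp_sub_U0 (act_mem hQ hu)), hh_act (SymSp_sub_U0 hQ)]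

/-- splitting of a symmetric matrix with vanishing diagonal -/
lemma split_symm {Y : Mat n} (hY : Yᵀ = Y) (hd : ∀ i, Y i i = 0) :
    ∃ S, SL S ∧ Y = S + Sᵀ := by
  refine ⟨Matrix.of fun i j => if j < i then Y i j else 0, ?_, ?_⟩
  · intro i j hij
    simp [not_lt.2 hij]
  · ext i j
    rw [Matrix.add_apply, Matrix.transpose_apply, Matrix.of_apply, Matrix.of_apply]
    rcases lt_trichotomy i j with h | h | h
    · rw [if_neg (not_lt.2 h.le), if_pos h, zero_add]
      conv_lhs => rw [← hY]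
      rfl
    · subst h; simp [hd]
    · rw [if_pos h, if_neg (not_lt.2 h.le), add_zero]

end Pool.Agent.H309R3
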