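import Pool.Agent.H309R3.Sub

set_option autoImplicit false
set_option linter.unusedVariables false

open scoped ContDiff Matrix Matrix.Norms.Operator Topology
open Finset Matrix

namespace Pool.Agent.H309R3

lemma vf_smul (r : ℝ) (w : Fin 4 → ℝ) (Q : Mat 4) : vf (fun i => r * w i) Q = r • vf w Q := by
  unfold vf
  have : (Matrix.diagonal fun i => r * w i : Mat 4) = r • Matrix.diagonal w := by
    rw [← Matrix.diagonal_smul]; rfl
  rw [this, Matrix.smul_mul, Matrix.mul_smul, ← smul_add, smul_comm]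

/-- the normal form of `vf` -/
lemma vf_form {g : Mat 4} (hg : LTr g) (hp : ∀ i, 0 < g i i) (hm : g * gᵀ ∈ SymSp 4)
    {w : Fin 4 → ℝ} (hw : ∑ i, w i = 0) :
    ∃ Y : Mat 4, vf w (g * gᵀ) = g * Y * gᵀ ∧ Yᵀ = Y ∧ ∀ i, Y i i = w i := by
  obtain ⟨c, hc, hcm, hc0, hc1⟩ := tan_act hm hw
  have hd := det_ne_zero_of_LTr hg hp
  have h1 : HasDerivAt (fun t : ℝ => act (fun i => t * w i) (g * gᵀ)) (vf w (g * gᵀ)) 0 :=
    hasDerivAt_act _ (by funext i; simp) fun i => by
      have := (hasDerivAt_id' (0:ℝ)).mul_const (w i)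
      rw [one_mul] at this
      exact this
  obtain ⟨Y, hY1, hY2⟩ := exists_Y (c := fun t : ℝ => act (fun i => t * w i) (g * gᵀ))
    (fun t => act_mem hm (by rw [← Finset.mul_sum, hw, mul_zero])) h1 hd
  refine ⟨Y, hY1, hY2, fun i => ?_⟩
  rw [hY1] at h1
  have h2 := hasDerivAt_hh hg hp (act_zero w (g * gᵀ)) h1 i
  exact h2.unique (hasDerivAt_hh_act hm w i)

lemma contDiffOn_vf (r : ℝ) : ContDiffOn ℝ ∞ (fun Q : Mat 4 => vf (fun i => r * rotR (hh Q) i) Q) U0 := by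
  have hR : ∀ i, ContDiffOn ℝ ∞ (fun Q : Mat 4 => r * rotR (hh Q) i) U0 := by
    intro i
    apply contDiffOn_const.mul
    fin_cases i
    · exact ((contDiffOn_hh 2).sub (contDiffOn_hh 1)).div_const 2
    · exact ((contDiffOn_hh 3).sub (contDiffOn_hh 0)).neg.div_const 2
    · exact ((contDiffOn_hh 3).sub (contDiffOn_hh 0)).div_const 2
    · exact ((contDiffOn_hh 2).sub (contDiffOn_hh 1)).neg.div_const 2
  apply contDiffOn_mat
  intro i j
  have e : (fun Q : Mat 4 => vf (fun i => r * rotR (hh Q) i) Q i j) =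
      fun Q => (1/2 : ℝ) * ((r * rotR (hh Q) i) * Q i j + Q i j * (r * rotR (hh Q) j)) := by
    funext Q
    unfold vf
    rw [Matrix.smul_apply, Matrix.add_apply, Matrix.diagonal_mul, Matrix.mul_diagonal, smul_eq_mul]
  rw [e]
  exact contDiffOn_const.mul (((hR i).mul (contDiff_entry i j).contDiffOn).add
    ((contDiff_entry i j).contDiffOn.mul (hR j)))

theorem transitive : ∀ L ∈ fol, ∀ P ∈ L, ∀ X, TanVec L P X →
    ∃ (U : Set (Mat 4)) (Z : Mat 4 → Mat 4), IsOpen U ∧ SymSp 4 ⊆ U ∧ ContDiffOn ℝ ∞ Z U ∧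
      (∀ L' ∈ fol, ∀ Q ∈ L', TanVec L' Q (Z Q)) ∧ Z P = X := by
  rintro L ⟨P0, hP0, rfl⟩ P hP X hX
  obtain ⟨g, hg, hp, hPg, hgd⟩ := exists_root hP.1
  have hd := det_ne_zero_of_LTr hg hp
  have hX' := hX
  obtain ⟨c, hc, hcm, hc0, hc1⟩ := hX'
  have hcd : HasDerivAt c X 0 := by
    rw [← hc1]; exact ((hc.differentiable (by simp)) 0).hasDerivAt
  obtain ⟨Y, hY1, hY2⟩ := exists_Y (fun t => (hcm t).1) hcd hd
  obtain ⟨r, hr⟩ := tan_diag hP hX hg hp hPg hY1
  have hsum : ∑ i, (fun i => r * rotR (hh P) i) i = 0 := by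
    rw [← Finset.mul_sum, sum_rotR, mul_zero]
  obtain ⟨Y1, hY11, hY12, hY13⟩ := vf_form hg hp (hPg ▸ hP.1) hsum
  rw [← hPg] at hY11
  have hYs : (Y - Y1)ᵀ = Y - Y1 := by rw [Matrix.transpose_sub, hY2, hY12]
  have hYd : ∀ i, (Y - Y1) i i = 0 := by
    intro i; rw [Matrix.sub_apply, hr i, hY13 i, sub_self]
  obtain ⟨S, hS, hYS⟩ := split_symm hYs hYd
  set B : Mat 4 := g * S * g⁻¹ with hB
  have hBSL : SL B := SL_mul_LTr (LTr_mul_SL hg hS) (LTr_inv hg hd)
  refine ⟨U0, fun Q => B * Q + Q * Bᵀ + vf (fun i => r * rotR (hh Q) i) Q, isOpen_U0,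
    SymSp_sub_U0, ?_, ?_, ?_⟩
  · apply ContDiffOn.add _ (contDiffOn_vf r)
    have h1 : ContDiff ℝ ∞ fun Q : Mat 4 => B * Q := contDiff_mul contDiff_const contDiff_id
    have h2 : ContDiff ℝ ∞ fun Q : Mat 4 => Q * Bᵀ := contDiff_mul contDiff_id contDiff_const
    exact (h1.add h2).contDiffOn
  · rintro L' ⟨P', hP', rfl⟩ Q hQ
    exact tan_leaf hQ hBSL r
  · show B * P + P * Bᵀ + vf (fun i => r * rotR (hh P) i) P = X
    have h1 : g⁻¹ * g = 1 := Matrix.nonsing_inv_mul _ (isUnit_iff_ne_zero.2 hd)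
    have h2 : gᵀ * (g⁻¹)ᵀ = 1 := by rw [← Matrix.transpose_mul, h1, Matrix.transpose_one]
    have h3 : B * P = g * S * gᵀ := by
      rw [hB, hPg]
      calc g * S * g⁻¹ * (g * gᵀ) = g * S * (g⁻¹ * g) * gᵀ := by simp only [Matrix.mul_assoc]
        _ = _ := by rw [h1, Matrix.mul_one]
    have h4 : P * Bᵀ = g * Sᵀ * gᵀ := by
      rw [hB, hPg, Matrix.transpose_mul, Matrix.transpose_mul]
      calc g * gᵀ * ((g⁻¹)ᵀ * (Sᵀ * gᵀ)) = g * (gᵀ * (g⁻¹)ᵀ) * Sᵀ * gᵀ := by
            simp only [Matrix.mul_assoc]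
        _ = _ := by rw [h2, Matrix.mul_one]
    rw [h3, h4, hY11, hY1]
    have h5 : Y = S + Sᵀ + Y1 := by rw [← hYS]; abel
    rw [h5]
    simp only [Matrix.mul_add, Matrix.add_mul]

/-- skewness of the infinitesimal rotation -/
lemma rotR_skew (v w : Fin 4 → ℝ) (t : ℝ) (h : ∑ i, rotR v i * w i = 0) :
    ∑ i, rotR (fun i => v i + t * w i) i * w i = 0 := by
  simp only [rotR, Fin.sum_univ_four, Matrix.cons_val_zero, Matrix.cons_val_one, Matrix.cons_val] at h ⊢
  linear_combination h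

lemma trace_mul_diag {n : ℕ} (Y : Mat n) (w : Fin n → ℝ) : (Y * Matrix.diagonal w).trace = ∑ i, Y i i * w i := by
  rw [Matrix.trace]
  apply Finset.sum_congr rfl
  intro i _
  rw [Matrix.diag_apply, Matrix.mul_diagonal]

/-- a horizontal vector `g diag(w) gᵀ` orthogonal to the rotation direction is orthogonal to the
leaf -/
lemma orth_leaf {P0 P X : Mat 4} (hP : P ∈ leafOf P0) (hX : TanVec (leafOf P0) P X)
    {T : Mat 4} {v w : Fin 4 → ℝ} (hT : SL T) (hPT : P = pt T v)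
    (h : ∑ i, rotR v i * w i = 0) :
    gm P X (tg T v * Matrix.diagonal w * (tg T v)ᵀ) = 0 := by
  have hg := tg_LTr hT v
  have hp := tg_pos hT v
  have hd := tg_det hT v
  have hPg : P = tg T v * (tg T v)ᵀ := by rw [hPT, pt_eq]
  have hX' := hX
  obtain ⟨c, hc, hcm, hc0, hc1⟩ := hX'
  have hcd : HasDerivAt c X 0 := by
    rw [← hc1]; exact ((hc.differentiable (by simp)) 0).hasDerivAt
  obtain ⟨Y, hY1, hY2⟩ := exists_Y (fun t => (hcm t).1) hcd hd
  obtain ⟨r, hr⟩ := tan_diag hP hX hg hp hPg hY1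
  rw [hPg, hY1, gm_gg hd, trace_mul_diag]
  have e : ∀ i, Y i i = r * rotR v i := by
    intro i
    rw [hr i]
    have : hh P = v := by funext j; rw [hPT, hh_pt hT]
    rw [this]
  simp only [e, mul_assoc]
  rw [← Finset.mul_sum, h, mul_zero]

theorem riemannian : ∀ c : ℝ → Mat 4, IsGeodesic c → ∀ s : ℝ,
    (∀ L ∈ fol, c s ∈ L → ∀ X, TanVec L (c s) X → gm (c s) X (deriv c s) = 0) →
    ∀ t : ℝ, ∀ L ∈ fol, c t ∈ L → ∀ X, TanVec L (c t) X → gm (c t) X (deriv c t) = 0 := by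
  intro c hc s hs
  obtain ⟨T, v, hT, hv, hcs⟩ := mem_SymSp (hc.2.1 s)
  have hg := tg_LTr hT v
  have hp := tg_pos hT v
  have hd := tg_det hT v
  have hPg : c s = tg T v * (tg T v)ᵀ := by rw [hcs, pt_eq]
  have hcd : HasDerivAt c (deriv c s) s := ((hc.1.differentiable (by simp)) s).hasDerivAt
  obtain ⟨Y, hY1, hY2⟩ := exists_Y hc.2.1 hcd hd
  have hleaf : c s ∈ leafOf (c s) := mem_leafOf_self (hc.2.1 s)
  have hs' := hs (leafOf (c s)) ⟨c s, hc.2.1 s, rfl⟩ hleaf
  have h1 : (tg T v)⁻¹ * tg T v = 1 := Matrix.nonsing_inv_mul _ (isUnit_iff_ne_zero.2 hd)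
  have h2 : (tg T v)ᵀ * ((tg T v)⁻¹)ᵀ = 1 := by rw [← Matrix.transpose_mul, h1, Matrix.transpose_one]
  -- off-diagonal entries vanish
  have hoff : ∀ i j, j < i → Y i j = 0 := by
    intro i j hij
    have hS : SL (Matrix.single i j (1:ℝ) : Mat 4) := by
      intro k l hkl
      rw [Matrix.single_apply, if_neg]
      rintro ⟨rfl, rfl⟩
      exact absurd hkl (not_le.2 hij)
    have hBSL : SL (tg T v * Matrix.single i j (1:ℝ) * (tg T v)⁻¹) :=
      SL_mul_LTr (LTr_mul_SL hg hS) (LTr_inv hg hd)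
    have ht := tan_leaf hleaf hBSL 0
    have e1 : vf (fun i => (0:ℝ) * rotR (hh (c s)) i) (c s) = 0 := by
      rw [vf_smul, zero_smul]
    rw [e1, add_zero] at ht
    have h3 : tg T v * Matrix.single i j (1:ℝ) * (tg T v)⁻¹ * c s =
        tg T v * Matrix.single i j (1:ℝ) * (tg T v)ᵀ := by
      rw [hPg]
      calc tg T v * Matrix.single i j (1:ℝ) * (tg T v)⁻¹ * (tg T v * (tg T v)ᵀ) =
          tg T v * Matrix.single i j (1:ℝ) * ((tg T v)⁻¹ * tg T v) * (tg T v)ᵀ := by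
            simp only [Matrix.mul_assoc]
        _ = _ := by rw [h1, Matrix.mul_one]
    have h4 : c s * (tg T v * Matrix.single i j (1:ℝ) * (tg T v)⁻¹)ᵀ =
        tg T v * (Matrix.single i j (1:ℝ))ᵀ * (tg T v)ᵀ := by
      rw [hPg, Matrix.transpose_mul, Matrix.transpose_mul]
      calc tg T v * (tg T v)ᵀ * (((tg T v)⁻¹)ᵀ * ((Matrix.single i j (1:ℝ))ᵀ * (tg T v)ᵀ)) =
          tg T v * ((tg T v)ᵀ * ((tg T v)⁻¹)ᵀ) * (Matrix.single i j (1:ℝ))ᵀ * (tg T v)ᵀ := by
            simp only [Matrix.mul_assoc]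
        _ = _ := by rw [h2, Matrix.mul_one]
    rw [h3, h4] at ht
    have h5 := hs' _ ht
    have h6 : tg T v * Matrix.single i j (1:ℝ) * (tg T v)ᵀ + tg T v * (Matrix.single i j (1:ℝ))ᵀ * (tg T v)ᵀ
        = tg T v * (Matrix.single i j (1:ℝ) + (Matrix.single i j (1:ℝ))ᵀ) * (tg T v)ᵀ := by
      simp only [Matrix.mul_add, Matrix.add_mul]
    rw [h6, hY1, hPg, gm_gg hd, Matrix.add_mul, Matrix.trace_add, Matrix.transpose_single,
      Matrix.trace_single_mul, Matrix.trace_single_mul] at h5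
    have h7 : Y j i = Y i j := by
      conv_lhs => rw [← hY2]
      rfl
    simp only [one_mul, one_smul, smul_eq_mul] at h5
    rw [h7] at h5
    linarith
  set w : Fin 4 → ℝ := fun i => Y i i with hw
  have hYw : Y = Matrix.diagonal w := by
    ext i j
    rcases lt_trichotomy i j with h | h | h
    · rw [Matrix.diagonal_apply_ne _ h.ne]
      have h7 : Y i j = Y j i := by
        conv_lhs => rw [← hY2]
        rfl
      rw [h7, hoff j i h]
    · subst h; rw [Matrix.diagonal_apply_eq]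
    · rw [Matrix.diagonal_apply_ne _ h.ne', hoff i j h]
  -- orthogonality to the rotation direction
  have hrot : ∑ i, rotR v i * w i = 0 := by
    have ht := tan_leaf hleaf (B := 0) SL_zero 1
    simp only [Matrix.zero_mul, Matrix.transpose_zero, Matrix.mul_zero, add_zero, zero_add, one_mul] at ht
    have h5 := hs' _ ht
    have hhv : hh (c s) = v := by funext j; rw [hcs, hh_pt hT]
    obtain ⟨Y1, hY11, hY12, hY13⟩ := vf_form hg hp (hPg ▸ hc.2.1 s) (sum_rotR v)
    have e2 : (fun i => rotR (hh (c s)) i) = rotR v := by rw [hhv]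
    rw [e2, hPg, hY11, ← hPg, hY1, hYw, hPg, gm_gg hd, trace_mul_diag] at h5
    simpa only [hY13] using h5
  have hder : deriv c s = tg T v * Matrix.diagonal w * (tg T v)ᵀ := by rw [hY1, hYw]
  have hall := geodesic_unique hT hc hcs hder
  intro t L hL hct X hX
  obtain ⟨P0, hP0, rfl⟩ := hL
  have hct' : c t = pt T fun i => v i + (t - s) * w i := hall t
  have hdt : deriv c t = tg T (fun i => v i + (t - s) * w i) * Matrix.diagonal w *
      (tg T fun i => v i + (t - s) * w i)ᵀ := by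
    have h8 : c = fun t => pt T fun i => v i + (t - s) * w i := funext hall
    have h9 := hasDerivAt_line (T := T) (v := fun t i => v i + (t - s) * w i)
      (fun i => hasDerivAt_aff v w s t i)
    rw [← h8] at h9
    exact h9.deriv
  rw [hdt]
  exact orth_leaf hct hX hT hct' (rotR_skew v w (t - s) hrot)

theorem isSRF_fol : IsSRF fol 2 where
  cover := cover
  sub := by rintro L ⟨P, hP, rfl⟩ Q hQ; exact hQ.1
  connected := by rintro L ⟨P, hP, rfl⟩; exact isConnected_leaf hP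
  closed := by rintro L ⟨P, hP, rfl⟩; exact isClosed_leaf P
  submanifold := by
    rintro L ⟨P, hP, rfl⟩
    by_cases hA : (ivt P).1 = 0
    · exact ⟨3, by norm_num, sub_singular hP hA⟩
    · exact ⟨2, le_rfl, sub_regular hP hA⟩
  attained := ⟨leafOf (eD 1), ⟨eD 1, eD_mem _, rfl⟩, sub_regular (eD_mem _) (by
    rw [ivt_eD]; norm_num)⟩
  transitive := transitive
  riemannian := riemannian

end Pool.Agent.H309R3
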