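import Pool.Agent.H309R3.Paths

set_option autoImplicit false
set_option linter.unusedVariables false

open scoped ContDiff Matrix Matrix.Norms.Operator Topology
open Finset Matrix

namespace Pool.Agent.H309R3

variable {n : ℕ}

lemma SL_smul {T : Mat n} (hT : SL T) (a : ℝ) : SL (a • T) := by
  intro i j hij
  rw [Matrix.smul_apply, hT i j hij, smul_zero]

lemma LTr_mul_SL {A T : Mat n} (hA : LTr A) (hT : SL T) : SL (A * T) := by
  intro i j hij
  rw [Matrix.mul_apply]
  apply Finset.sum_eq_zero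
  intro k _
  rcases lt_or_ge i k with h | h
  · rw [hA i k h, zero_mul]
  · rw [hT k j (h.trans hij), mul_zero]

/-- the entries of `(1+(1-s)T)⁻¹ T` are bounded on `[0,1]` -/
lemma exists_bound {T : Mat n} (hT : SL T) : ∃ K : ℝ, 0 ≤ K ∧ ∀ s ∈ Set.Icc (0:ℝ) 1, ∀ i j,
    |((1 + (1 - s) • T)⁻¹ * T) i j| ≤ K := by
  have hc : Continuous fun s : ℝ => (1 + (1 - s) • T)⁻¹ * T := by
    have h1 : (fun s : ℝ => (1 + (1 - s) • T)⁻¹) = fun s : ℝ => (1 + (1 - s) • T).adjugate := by
      funext s
      rw [Matrix.inv_def, det_unip (SL_smul hT _)]; simp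
    have h2 : Continuous fun s : ℝ => (1 + (1 - s) • T)⁻¹ := by
      rw [h1]
      apply Continuous.matrix_adjugate
      exact continuous_const.add ((continuous_const.sub continuous_id).smul continuous_const)
    exact h2.matrix_mul continuous_const
  have h3 : ∀ i j, ∃ K : ℝ, ∀ s ∈ Set.Icc (0:ℝ) 1, |((1 + (1 - s) • T)⁻¹ * T) i j| ≤ K := by
    intro i j
    have h4 : Continuous fun s : ℝ => ((1 + (1 - s) • T)⁻¹ * T) i j :=
      (continuous_apply_apply i j).comp hc
    obtain ⟨K, hK⟩ := isCompact_Icc.exists_bound_of_continuousOn (s := Set.Icc (0:ℝ) 1) h4.continuousOn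
    exact ⟨K, fun s hs => by simpa using hK s hs⟩
  choose K hK using h3
  refine ⟨∑ i, ∑ j, |K i j|, by positivity, fun s hs i j => ?_⟩
  calc |((1 + (1 - s) • T)⁻¹ * T) i j| ≤ K i j := hK i j s hs
    _ ≤ |K i j| := le_abs_self _
    _ ≤ ∑ j, |K i j| := Finset.single_le_sum (f := fun j => |K i j|) (fun _ _ => abs_nonneg _) (mem_univ j)
    _ ≤ _ := Finset.single_le_sum (f := fun i => ∑ j, |K i j|)
        (fun _ _ => Finset.sum_nonneg fun _ _ => abs_nonneg _) (mem_univ i)

lemma trace_sq_SL {S : Mat n} (hS : SL S) (w : Fin n → ℝ) :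
    ((S + Sᵀ + Matrix.diagonal w) * (S + Sᵀ + Matrix.diagonal w)).trace =
      ∑ i, w i ^ 2 + 2 * ∑ i, ∑ j, S i j ^ 2 := by
  have hsym : (S + Sᵀ + Matrix.diagonal w)ᵀ = S + Sᵀ + Matrix.diagonal w := by
    rw [Matrix.transpose_add, Matrix.transpose_add, Matrix.transpose_transpose, diag_transpose,
      add_comm Sᵀ S]
  rw [trace_sq hsym]
  have h1 : ∀ i j, (S + Sᵀ + Matrix.diagonal w) i j ^ 2 =
      (if i = j then w i ^ 2 else 0) + (S i j ^ 2 + S j i ^ 2) := by
    intro i j
    rw [Matrix.add_apply, Matrix.add_apply, Matrix.transpose_apply]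
    rcases lt_trichotomy i j with h | h | h
    · rw [hS i j h.le, Matrix.diagonal_apply_ne _ h.ne, if_neg h.ne]; ring
    · subst h
      rw [hS i i le_rfl, Matrix.diagonal_apply_eq, if_pos rfl]; ring
    · rw [hS j i h.le, Matrix.diagonal_apply_ne _ h.ne', if_neg h.ne']; ring
  simp only [h1, Finset.sum_add_distrib, Finset.sum_ite_eq, Finset.mem_univ, if_true]
  have h2 : ∑ i, ∑ j, S j i ^ 2 = ∑ i, ∑ j, S i j ^ 2 := Finset.sum_comm
  rw [h2]; ring

/-- the distance from a point of the `N`-orbit of the base point to `exp (tD)` -/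
lemma rdist_upper {T : Mat n} (hT : SL T) {D : Fin n → ℝ} (hD : ∀ i j, i ≤ j → D i ≤ D j)
    (hD0 : ∑ i, D i = 0) (hD1 : 0 < ∑ i, D i ^ 2) :
    ∃ C : ℝ, 0 ≤ C ∧ ∀ t : ℝ, 0 < t → rdist (pt T fun _ => 0) (ed fun i => t * D i) ≤
      ENNReal.ofReal (t * √(∑ i, D i ^ 2) + C / t) := by
  obtain ⟨K, hK0, hK⟩ := exists_bound hT
  set A := √(∑ i, D i ^ 2) with hA
  have hA0 : 0 < A := Real.sqrt_pos.2 hD1
  refine ⟨n * (n * K ^ 2) / A, by positivity, fun t ht => ?_⟩
  set N : ℝ → Mat n := fun s => 1 + (1 - s) • T with hN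
  set u : ℝ → Fin n → ℝ := fun s i => s * (t * D i) with hu
  set c : ℝ → Mat n := fun s => pt ((1 - s) • T) (u s) with hcdef
  have hNdet : ∀ s, (N s).det = 1 := fun s => det_unip (SL_smul hT _)
  have hN' : ∀ s, HasDerivAt N (-T) s := by
    intro s
    have := (((hasDerivAt_id' s).const_sub 1).smul_const T).const_add (1 : Mat n)
    rw [neg_one_smul] at this
    exact this
  have hu' : ∀ s i, HasDerivAt (fun s => u s i) (t * D i) s := by
    intro s i
    have := (hasDerivAt_id' s).mul_const (t * D i)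
    rw [one_mul] at this
    exact this
  have hcm : ∀ s, c s ∈ SymSp n := by
    intro s
    apply pt_mem (SL_smul hT _)
    simp only [hu, ← Finset.mul_sum, hD0, mul_zero]
  have hcc : ContDiff ℝ 1 c := by
    have h1 : ContDiff ℝ 1 N := by
      exact contDiff_const.add ((contDiff_const.sub contDiff_id).smul contDiff_const)
    have h2 : ContDiff ℝ 1 fun s => ed (u s) :=
      contDiff_ed fun i => contDiff_id.mul contDiff_const
    exact contDiff_mul (contDiff_mul h1 h2) (contDiff_transpose h1)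
  have h0 : c 0 = pt T fun _ => 0 := by
    simp only [hcdef, hu, sub_zero, one_smul, zero_mul]
  have h1 : c 1 = ed fun i => t * D i := by
    simp only [hcdef, hu, sub_self, zero_smul, one_mul, pt_zero]
  have h := rdist_le hcc hcm
  rw [h0, h1] at h
  refine h.trans (ENNReal.ofReal_le_ofReal ?_)
  -- speed
  have hspeed : ∀ s ∈ Set.Icc (0:ℝ) 1, √(gm (c s) (deriv c s) (deriv c s)) ≤
      t * A + n * (n * K ^ 2) / A / t := by
    intro s hs
    set g := tg ((1 - s) • T) (u s) with hg
    set S : Mat n := - ((ed fun i => - (u s i / 2)) * ((N s)⁻¹ * T) * ed fun i => u s i / 2) with hS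
    have hNu : IsUnit (N s).det := by rw [hNdet]; exact isUnit_one
    have hNinv : N s * (N s)⁻¹ = 1 := Matrix.mul_nonsing_inv _ hNu
    have hgS : g * S * gᵀ = - (T * ed (u s) * (N s)ᵀ) := by
      have e1 : (ed fun i => u s i / 2) * (ed fun i => - (u s i / 2)) = (1 : Mat n) :=
        ed_mul_neg fun i => u s i / 2
      have e2 : g = N s * ed fun i => u s i / 2 := rfl
      rw [e2, hS, Matrix.transpose_mul, ed_transpose]
      calc N s * (ed fun i => u s i / 2) * -((ed fun i => - (u s i / 2)) * ((N s)⁻¹ * T) * ed fun i => u s i / 2) *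
            ((ed fun i => u s i / 2) * (N s)ᵀ) =
          - (N s * ((ed fun i => u s i / 2) * (ed fun i => - (u s i / 2))) * (N s)⁻¹ * T *
            ((ed fun i => u s i / 2) * (ed fun i => u s i / 2)) * (N s)ᵀ) := by
            simp only [Matrix.mul_neg, Matrix.neg_mul, Matrix.mul_assoc]
        _ = _ := by
            rw [e1, Matrix.mul_one, hNinv, Matrix.one_mul, ed_half]
    have hgD : g * Matrix.diagonal (fun i => t * D i) * gᵀ =
        N s * (Matrix.diagonal (fun i => t * D i) * ed (u s)) * (N s)ᵀ := by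
      have e2 : g = N s * ed fun i => u s i / 2 := rfl
      rw [e2, Matrix.transpose_mul, ed_transpose, ← ed_half']
      simp only [Matrix.mul_assoc]
    have hder : HasDerivAt c (g * (S + Sᵀ + Matrix.diagonal fun i => t * D i) * gᵀ) s := by
      have h2 := ((hN' s).mul (hasDerivAt_ed (hu' s))).mul (hasDerivAt_transpose (hN' s))
      refine h2.congr_deriv ?_
      have e3 : g * (S + Sᵀ + Matrix.diagonal fun i => t * D i) * gᵀ =
          g * S * gᵀ + (g * S * gᵀ)ᵀ + g * Matrix.diagonal (fun i => t * D i) * gᵀ := by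
        simp only [Matrix.mul_add, Matrix.add_mul, Matrix.transpose_mul, Matrix.transpose_transpose,
          Matrix.mul_assoc]
      rw [e3, hgS, hgD]
      simp only [Pi.mul_apply, Matrix.transpose_neg, Matrix.transpose_mul, Matrix.transpose_transpose,
        ed_transpose, Matrix.add_mul, Matrix.neg_mul, Matrix.mul_neg, Matrix.mul_assoc]
      abel
    have hSL : SL S := by
      have h3 : SL ((N s)⁻¹ * T) :=
        LTr_mul_SL (LTr_inv (unip_LTr (SL_smul hT _)) (by rw [det_unip (SL_smul hT _)]; exact one_ne_zero)) hT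
      intro i j hij
      rw [hS, Matrix.neg_apply]
      unfold ed
      rw [Matrix.mul_diagonal, Matrix.diagonal_mul, h3 i j hij]
      simp
    have hSb : ∀ i j, S i j ^ 2 ≤ K ^ 2 := by
      intro i j
      rcases le_or_gt i j with hij | hij
      · rw [hSL i j hij]; simpa using sq_nonneg K
      · have e4 : S i j = - (Real.exp (u s j / 2 - u s i / 2) * ((N s)⁻¹ * T) i j) := by
          rw [hS, Matrix.neg_apply]
          unfold ed
          rw [Matrix.mul_diagonal, Matrix.diagonal_mul, sub_eq_add_neg, Real.exp_add]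
          ring
        have e5 : Real.exp (u s j / 2 - u s i / 2) ≤ 1 := by
          rw [Real.exp_le_one_iff]
          have := hD j i hij.le
          have h5 : t * D j ≤ t * D i := mul_le_mul_of_nonneg_left this ht.le
          have h6 : s * (t * D j) ≤ s * (t * D i) := mul_le_mul_of_nonneg_left h5 hs.1
          simp only [hu]
          linarith
        rw [e4, neg_sq, mul_pow]
        have e6 : ((N s)⁻¹ * T) i j ^ 2 ≤ K ^ 2 := by
          rw [← sq_abs]
          exact pow_le_pow_left₀ (abs_nonneg _) (hK s hs i j) 2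
        have e7 : Real.exp (u s j / 2 - u s i / 2) ^ 2 ≤ 1 := pow_le_one₀ (Real.exp_pos _).le e5
        calc _ ≤ 1 * K ^ 2 := mul_le_mul e7 e6 (sq_nonneg _) zero_le_one
          _ = K ^ 2 := one_mul _
    have hgm : gm (c s) (deriv c s) (deriv c s) ≤ t ^ 2 * A ^ 2 + 2 * (n * (n * K ^ 2)) := by
      rw [show deriv c s = _ from hder.deriv, show c s = g * gᵀ from pt_eq _ _, gm_gg (tg_det (SL_smul hT _) _), trace_sq_SL hSL]
      have e8 : ∑ i, (t * D i) ^ 2 = t ^ 2 * A ^ 2 := by
        rw [hA, Real.sq_sqrt hD1.le, Finset.mul_sum]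
        apply Finset.sum_congr rfl; intro i _; ring
      rw [e8]
      have e9 : ∑ i, ∑ j, S i j ^ 2 ≤ n * (n * K ^ 2) := by
        calc ∑ i, ∑ j, S i j ^ 2 ≤ ∑ i : Fin n, ∑ j : Fin n, K ^ 2 :=
              Finset.sum_le_sum fun i _ => Finset.sum_le_sum fun j _ => hSb i j
          _ = _ := by simp
      linarith
    apply Real.sqrt_le_iff.2
    refine ⟨by positivity, hgm.trans ?_⟩
    have e10 : (t * A + n * (n * K ^ 2) / A / t) ^ 2 =
        t ^ 2 * A ^ 2 + 2 * (n * (n * K ^ 2)) + (n * (n * K ^ 2) / A / t) ^ 2 := by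
      field_simp
      ring
    rw [e10]
    have := sq_nonneg (n * (n * K ^ 2) / A / t)
    linarith
  unfold len
  have hint := intervalIntegral.integral_mono_on (μ := MeasureTheory.volume) (a := (0:ℝ)) (b := 1)
    (f := fun s => √(gm (c s) (deriv c s) (deriv c s)))
    (g := fun _ => t * A + n * (n * K ^ 2) / A / t) zero_le_one
    ((continuous_speed hcc hcm).intervalIntegrable _ _) (by simp) hspeed
  refine hint.trans ?_
  simp

end Pool.Agent.H309R3
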